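import Mathlib

set_option autoImplicit false

namespace Pool.Agent.Results.MP_c8a2a1_co.BookDimension

open Set

/-- A finite oriented graph without directed cycles on the vertex type `V` (an aograph).
`Arc b a` says that there is an arc directed from `b` to `a`. Acyclicity excludes loops and
opposite arcs, and a relation has no multiple arcs. -/
structure Aograph (V : Type) where
  Arc : V → V → Prop
  acyclic : ∀ v, ¬ Relation.TransGen Arc v v

/-- The order `P(G)`: `a ≤ b` iff there is a directed path (possibly trivial) from `b` to `a`. -/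
def Aograph.le {V : Type} (G : Aograph V) (a b : V) : Prop := Relation.ReflTransGen G.Arc b a

/-- `P(G)` has a greatest and a least element. -/
def Aograph.Bounded {V : Type} (G : Aograph V) : Prop :=
  (∃ top, ∀ a, G.le a top) ∧ (∃ bot, ∀ a, G.le bot a)

/-- `L` is a linear order on `V` that contains the relation `r`. -/
def IsLinearExtension {V : Type} (r L : V → V → Prop) : Prop :=
  (∀ a, L a a) ∧ (∀ a b, L a b → L b a → a = b) ∧ (∀ a b c, L a b → L b c → L a c) ∧
    (∀ a b, L a b ∨ L b a) ∧ (∀ a b, r a b → L a b)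

/-- The relation `r` is the intersection of `t` linear extensions. -/
def IsIntersectionOf {V : Type} (r : V → V → Prop) (t : ℕ) : Prop :=
  ∃ L : Fin t → V → V → Prop, (∀ i, IsLinearExtension r (L i)) ∧ ∀ a b, r a b ↔ ∀ i, L i a b

/-- The order dimension of `P(G)`: the least positive `t` such that `P(G)` is the intersection
of `t` linear extensions. -/
noncomputable def Aograph.dim {V : Type} (G : Aograph V) : ℕ :=
  sInf {t : ℕ | 0 < t ∧ IsIntersectionOf G.le t}

/-- The closed half-plane of `ℝ³` that contains the point `(u.1, u.2, 0)` and whose boundary is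
the `z`-axis. -/
def halfPlane (u : ℝ × ℝ) : Set (ℝ × ℝ × ℝ) :=
  {p | ∃ r : ℝ, 0 ≤ r ∧ p.1 = r * u.1 ∧ p.2.1 = r * u.2}

/-- `B` is a book with `n` pages: the union of `n` distinct closed half-planes whose common
boundary is the `z`-axis. -/
def IsBook (n : ℕ) (B : Set (ℝ × ℝ × ℝ)) : Prop :=
  ∃ u : Fin n → ℝ × ℝ, (∀ i, u i ≠ 0) ∧ Function.Injective (fun i => halfPlane (u i)) ∧
    B = ⋃ i, halfPlane (u i)

/-- `γ` restricted to `[0,1]` is a piecewise linear path: it is continuous and there is a finite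
set `S` of break points such that `γ` is affine on every subinterval of `[0,1]` whose interior
contains no point of `S`. -/
def IsPLPath (γ : ℝ → ℝ × ℝ × ℝ) : Prop :=
  ContinuousOn γ (Icc 0 1) ∧ ∃ S : Finset ℝ, ∀ s t : ℝ, 0 ≤ s → s < t → t ≤ 1 →
    (∀ r ∈ S, ¬ (s < r ∧ r < t)) → ∃ p v : ℝ × ℝ × ℝ, ∀ r ∈ Icc s t, γ r = p + r • v

/-- An order-preserving embedding of the aograph `G` in the set `B ⊆ ℝ³`. The arc of `G` from
`b` to `a` is drawn along the path `path b a` on `[0,1]`. -/
structure OrderPreservingEmbedding {V : Type} (G : Aograph V) (B : Set (ℝ × ℝ × ℝ)) where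
  pos : V → ℝ × ℝ × ℝ
  path : V → V → ℝ → ℝ × ℝ × ℝ
  pos_injective : Function.Injective pos
  pos_mem : ∀ v, pos v ∈ B
  path_pl : ∀ b a, G.Arc b a → IsPLPath (path b a)
  path_zero : ∀ b a, G.Arc b a → path b a 0 = pos b
  path_one : ∀ b a, G.Arc b a → path b a 1 = pos a
  path_mem : ∀ b a, G.Arc b a → ∀ t ∈ Icc (0 : ℝ) 1, path b a t ∈ B
  path_descends : ∀ b a, G.Arc b a → StrictAntiOn (fun t => (path b a t).2.2) (Icc 0 1)
  path_vertex : ∀ b a, G.Arc b a → ∀ t ∈ Icc (0 : ℝ) 1, ∀ v, path b a t = pos v → v = b ∨ v = a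
  path_disjoint : ∀ b a b' a', G.Arc b a → G.Arc b' a' → (b, a) ≠ (b', a') →
    ∀ s ∈ Icc (0 : ℝ) 1, ∀ t ∈ Icc (0 : ℝ) 1, path b a s = path b' a' t →
      ∃ v, (v = b ∨ v = a) ∧ (v = b' ∨ v = a') ∧ path b a s = pos v

/-! ### Piecewise linear real functions on `[0,1]` -/

/-- Scalar version of piecewise linearity on `[0,1]`. -/
def PL (f : ℝ → ℝ) : Prop :=
  ∃ S : Finset ℝ, ∀ s t : ℝ, 0 ≤ s → s < t → t ≤ 1 →
    (∀ r ∈ S, ¬ (s < r ∧ r < t)) → ∃ p v : ℝ, ∀ r ∈ Icc s t, f r = p + r * v

theorem PL.affine (p v : ℝ) : PL (fun r => p + r * v) :=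
  ⟨∅, fun _ _ _ _ _ _ => ⟨p, v, fun _ _ => rfl⟩⟩

theorem PL.const (p : ℝ) : PL (fun _ => p) :=
  ⟨∅, fun _ _ _ _ _ _ => ⟨p, 0, fun _ _ => by simp⟩⟩

theorem PL.add {f g : ℝ → ℝ} (hf : PL f) (hg : PL g) : PL (fun r => f r + g r) := by
  classical
  obtain ⟨S, hS⟩ := hf
  obtain ⟨T, hT⟩ := hg
  refine ⟨S ∪ T, fun s t h0 hst h1 hr => ?_⟩
  obtain ⟨p, v, h⟩ := hS s t h0 hst h1 (fun r hr' => hr r (Finset.mem_union_left _ hr'))
  obtain ⟨p', v', h'⟩ := hT s t h0 hst h1 (fun r hr' => hr r (Finset.mem_union_right _ hr'))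
  refine ⟨p + p', v + v', fun r hr => ?_⟩
  beta_reduce
  rw [h r hr, h' r hr]; ring

theorem PL.cmul {f : ℝ → ℝ} (c : ℝ) (hf : PL f) : PL (fun r => c * f r) := by
  obtain ⟨S, hS⟩ := hf
  refine ⟨S, fun s t h0 hst h1 hr => ?_⟩
  obtain ⟨p, v, h⟩ := hS s t h0 hst h1 hr
  refine ⟨c * p, c * v, fun r hr => ?_⟩
  beta_reduce
  rw [h r hr]; ring

theorem PL.congr {f g : ℝ → ℝ} (hf : PL f) (h : ∀ r, g r = f r) : PL g := by
  obtain rfl : g = f := funext h
  exact hf

theorem PL.pos {f : ℝ → ℝ} (hf : PL f) : PL (fun r => max 0 (f r)) := by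
  classical
  obtain ⟨S, hS⟩ := hf
  set S' : Finset ℝ := insert 0 (insert 1 S) with hS'
  let R : ℝ × ℝ → ℝ := fun q =>
    if h : ∃ p v : ℝ, v ≠ 0 ∧ ∀ r ∈ Icc q.1 q.2, f r = p + r * v then
      -(h.choose) / (h.choose_spec.choose) else 0
  refine ⟨S' ∪ (S' ×ˢ S').image R, fun s t h0 hst h1 hr => ?_⟩
  have hA : (S'.filter (· ≤ s)).Nonempty := ⟨0, by simp [hS', h0]⟩
  have hB : (S'.filter (t ≤ ·)).Nonempty := ⟨1, by simp [hS', h1]⟩
  set s' := (S'.filter (· ≤ s)).max' hA with hs'
  set t' := (S'.filter (t ≤ ·)).min' hB with ht'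
  have hs'm : s' ∈ S'.filter (· ≤ s) := Finset.max'_mem _ _
  have ht'm : t' ∈ S'.filter (t ≤ ·) := Finset.min'_mem _ _
  rw [Finset.mem_filter] at hs'm ht'm
  have h0s' : 0 ≤ s' := Finset.le_max' _ _ (by simp [hS', h0])
  have h1t' : t' ≤ 1 := Finset.min'_le _ _ (by simp [hS', h1])
  have hs't' : s' < t' := lt_of_le_of_lt hs'm.2 (lt_of_lt_of_le hst ht'm.2)
  have hno : ∀ r ∈ S, ¬ (s' < r ∧ r < t') := by
    intro r hrS ⟨h3, h4⟩
    have hrS' : r ∈ S' := by simp [hS', hrS]
    by_cases h5 : r ≤ s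
    · have : r ≤ s' := Finset.le_max' _ _ (by simp [hrS', h5])
      linarith
    · by_cases h6 : t ≤ r
      · have : t' ≤ r := Finset.min'_le _ _ (by simp [hrS', h6])
        linarith
      · exact hr r (Finset.mem_union_left _ hrS') ⟨not_le.mp h5, not_le.mp h6⟩
  obtain ⟨p, v, h⟩ := hS s' t' h0s' hs't' h1t' hno
  by_cases hv : v = 0
  · refine ⟨max 0 p, 0, fun r hr => ?_⟩
    have := h r ⟨hs'm.2.trans hr.1, hr.2.trans ht'm.2⟩
    simp [this, hv]
  · have hex : ∃ p v : ℝ, v ≠ 0 ∧ ∀ r ∈ Icc (s', t').1 (s', t').2, f r = p + r * v := ⟨p, v, hv, h⟩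
    have hroot : R (s', t') = -(hex.choose) / (hex.choose_spec.choose) := dif_pos hex
    have hmemR : R (s', t') ∈ S' ∪ (S' ×ˢ S').image R :=
      Finset.mem_union_right _ (Finset.mem_image_of_mem R
        (Finset.mem_product.2 ⟨hs'm.1, ht'm.1⟩))
    have hnr := hr _ hmemR
    rw [hroot] at hnr
    obtain ⟨hv', h'⟩ := hex.choose_spec.choose_spec
    set p' := hex.choose
    set v' := hex.choose_spec.choose
    have h'' : ∀ r ∈ Icc s t, f r = p' + r * v' := fun r hr =>
      h' r ⟨hs'm.2.trans hr.1, hr.2.trans ht'm.2⟩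
    set r0 := -p' / v' with hr0
    have hp' : p' = -(r0 * v') := by rw [hr0]; field_simp
    have hf' : ∀ r ∈ Icc s t, f r = v' * (r - r0) := by
      intro r hr; rw [h'' r hr, hp']; ring
    rcases lt_or_ge s r0 with h7 | h7
    · have h8 : t ≤ r0 := by
        by_contra h8; exact hnr ⟨h7, not_le.mp h8⟩
      rcases lt_or_gt_of_ne hv' with h9 | h9
      · refine ⟨p', v', fun r hr => ?_⟩
        beta_reduce
        rw [h'' r hr, max_eq_right]
        rw [← h'' r hr, hf' r hr]
        nlinarith [hr.2]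
      · refine ⟨0, 0, fun r hr => ?_⟩
        beta_reduce
        rw [hf' r hr, max_eq_left]
        · simp
        · nlinarith [hr.2]
    · rcases lt_or_gt_of_ne hv' with h9 | h9
      · refine ⟨0, 0, fun r hr => ?_⟩
        beta_reduce
        rw [hf' r hr, max_eq_left]
        · simp
        · nlinarith [hr.1]
      · refine ⟨p', v', fun r hr => ?_⟩
        beta_reduce
        rw [h'' r hr, max_eq_right]
        rw [← h'' r hr, hf' r hr]
        nlinarith [hr.1]

theorem PL.max {f g : ℝ → ℝ} (hf : PL f) (hg : PL g) : PL (fun r => max (f r) (g r)) := by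
  refine (hf.add (hg.add (hf.cmul (-1))).pos).congr fun r => ?_
  rcases le_total (f r) (g r) with h | h
  · rw [max_eq_right h, max_eq_right (by linarith)]; ring
  · rw [max_eq_left h, max_eq_left (by linarith)]; ring

theorem PL.min {f g : ℝ → ℝ} (hf : PL f) (hg : PL g) : PL (fun r => min (f r) (g r)) := by
  refine (((hf.cmul (-1)).max (hg.cmul (-1))).cmul (-1)).congr fun r => ?_
  rcases le_total (f r) (g r) with h | h
  · rw [min_eq_left h, max_eq_left (by linarith)]; ring
  · rw [min_eq_right h, max_eq_right (by linarith)]; ring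

theorem PL.abs {f : ℝ → ℝ} (hf : PL f) : PL (fun r => |f r|) := by
  refine (hf.max (hf.cmul (-1))).congr fun r => ?_
  rw [abs_eq_max_neg, neg_one_mul]

theorem PL.sum {ι : Type} (s : Finset ι) {f : ι → ℝ → ℝ} (hf : ∀ i ∈ s, PL (f i)) :
    PL (fun r => ∑ i ∈ s, f i r) := by
  classical
  induction s using Finset.induction_on with
  | empty => simpa using PL.const 0
  | insert a s ha ih =>
    refine ((hf a (Finset.mem_insert_self _ _)).add
      (ih fun i hi => hf i (Finset.mem_insert_of_mem hi))).congr fun r => ?_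
    rw [Finset.sum_insert ha]

theorem isPLPath_of_PL {f g k : ℝ → ℝ} (hf : PL f) (hg : PL g) (hk : PL k)
    (cf : Continuous f) (cg : Continuous g) (ck : Continuous k) :
    IsPLPath (fun r => (f r, g r, k r)) := by
  classical
  refine ⟨(by fun_prop : Continuous fun r => (f r, g r, k r)).continuousOn, ?_⟩
  obtain ⟨S, hS⟩ := hf
  obtain ⟨T, hT⟩ := hg
  obtain ⟨U, hU⟩ := hk
  refine ⟨S ∪ (T ∪ U), fun s t h0 hst h1 hr => ?_⟩
  obtain ⟨p, v, h⟩ := hS s t h0 hst h1 (fun r hr' => hr r (by simp [hr']))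
  obtain ⟨p', v', h'⟩ := hT s t h0 hst h1 (fun r hr' => hr r (by simp [hr']))
  obtain ⟨p'', v'', h''⟩ := hU s t h0 hst h1 (fun r hr' => hr r (by simp [hr']))
  refine ⟨(p, p', p''), (v, v', v''), fun r hr => ?_⟩
  simp [h r hr, h' r hr, h'' r hr]

/-! ### Linear extensions and heights -/

theorem le_antisymm' {V : Type} (G : Aograph V) {a b : V} (hab : G.le a b) (hba : G.le b a) :
    a = b := by
  rcases Relation.reflTransGen_iff_eq_or_transGen.1 hab with h | h
  · exact h
  · exact absurd (Relation.TransGen.trans_left h hba) (G.acyclic b)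

theorem exists_linearExtension {V : Type} (r : V → V → Prop) (h1 : ∀ a, r a a)
    (h2 : ∀ a b, r a b → r b a → a = b) (h3 : ∀ a b c, r a b → r b c → r a c) :
    ∃ L, IsLinearExtension r L := by
  have hpo : IsPartialOrder V r :=
    { refl := h1, trans := h3, antisymm := h2 }
  obtain ⟨L, hL, hle⟩ := extend_partialOrder r
  refine ⟨L, fun a => hL.refl a, fun a b => hL.antisymm a b, fun a b c => hL.trans a b c,
    fun a b => hL.total a b, fun a b => hle a b⟩

theorem exists_linearExtension_of_not {V : Type} (G : Aograph V) {x y : V} (hxy : ¬ G.le x y) :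
    ∃ L, IsLinearExtension G.le L ∧ ¬ L x y := by
  have hne : x ≠ y := fun h => hxy (h ▸ Relation.ReflTransGen.refl)
  have tr : ∀ {a b c}, G.le a b → G.le b c → G.le a c := fun hab hbc =>
    Relation.ReflTransGen.trans hbc hab
  obtain ⟨L, hL⟩ := exists_linearExtension (fun a b => G.le a b ∨ (G.le a y ∧ G.le x b))
    (fun a => Or.inl Relation.ReflTransGen.refl)
    (by
      rintro a b (h | ⟨h, h'⟩) (k | ⟨k, k'⟩)
      · exact le_antisymm' G h k
      · exact absurd (tr k' (tr h k)) hxy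
      · exact absurd (tr h' (tr k h)) hxy
      · exact absurd (tr h' k) hxy)
    (by
      rintro a b c (h | ⟨h, h'⟩) (k | ⟨k, k'⟩)
      · exact Or.inl (tr h k)
      · exact Or.inr ⟨tr h k, k'⟩
      · exact Or.inr ⟨h, tr h' k⟩
      · exact Or.inr ⟨h, k'⟩)
  refine ⟨L, ⟨hL.1, hL.2.1, hL.2.2.1, hL.2.2.2.1, fun a b hab => hL.2.2.2.2 a b (Or.inl hab)⟩, ?_⟩
  intro hL'
  exact hne (hL.2.1 _ _ hL' (hL.2.2.2.2 _ _
    (Or.inr ⟨Relation.ReflTransGen.refl, Relation.ReflTransGen.refl⟩)))

theorem exists_height {V : Type} [Fintype V] (G : Aograph V) :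
    ∃ h : V → ℕ, Function.Injective h ∧ ∀ b a, G.Arc b a → h a < h b := by
  classical
  obtain ⟨L, h1, h2, h3, h4, h5⟩ := exists_linearExtension G.le
    (fun a => Relation.ReflTransGen.refl) (fun a b => le_antisymm' G)
    (fun a b c hab hbc => Relation.ReflTransGen.trans hbc hab)
  have key : ∀ a b, L a b → a ≠ b → (Finset.univ.filter (fun w => L w a)).card <
      (Finset.univ.filter (fun w => L w b)).card := by
    intro a b hab hne
    apply Finset.card_lt_card
    rw [Finset.ssubset_iff_of_subset]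
    · exact ⟨b, by simp [h1], fun hb => hne (h2 _ _ hab (by simpa using hb))⟩
    · intro w hw
      simp only [Finset.mem_filter, Finset.mem_univ, true_and] at hw ⊢
      exact h3 _ _ _ hw hab
  refine ⟨fun v => (Finset.univ.filter (fun w => L w v)).card, ?_, ?_⟩
  · intro a b hab
    by_contra hne
    rcases h4 a b with h | h
    · exact absurd hab (key a b h hne).ne
    · exact absurd hab (key b a h (Ne.symm hne)).ne'
  · intro b a hba
    refine key a b (h5 _ _ (Relation.ReflTransGen.single hba)) ?_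
    rintro rfl
    exact G.acyclic _ (Relation.TransGen.single hba)

/-! ### Realizers exist, and the standard example -/

theorem exists_isIntersectionOf {V : Type} [Fintype V] (G : Aograph V) :
    ∃ t, 0 < t ∧ IsIntersectionOf G.le t := by
  classical
  have hL : ∀ q : V × V, ∃ L, IsLinearExtension G.le L ∧ (¬ G.le q.1 q.2 → ¬ L q.1 q.2) := by
    intro q
    by_cases h : G.le q.1 q.2
    · obtain ⟨L, hL⟩ := exists_linearExtension G.le
        (fun a => Relation.ReflTransGen.refl) (fun a b => le_antisymm' G)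
        (fun a b c hab hbc => Relation.ReflTransGen.trans hbc hab)
      exact ⟨L, hL, fun h' => absurd h h'⟩
    · obtain ⟨L, hL, hn⟩ := exists_linearExtension_of_not G h
      exact ⟨L, hL, fun _ => hn⟩
  choose L hL hn using hL
  obtain ⟨L0, hL0⟩ := exists_linearExtension G.le
        (fun a => Relation.ReflTransGen.refl) (fun a b => le_antisymm' G)
        (fun a b c hab hbc => Relation.ReflTransGen.trans hbc hab)
  let e := Fintype.equivFin (V × V)
  refine ⟨Fintype.card (V × V) + 1, Nat.succ_pos _, Fin.cases L0 (fun i => L (e.symm i)), ?_, ?_⟩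
  · intro i
    refine Fin.cases ?_ (fun i => ?_) i
    · exact hL0
    · exact hL _
  · intro a b
    constructor
    · intro hab i
      refine Fin.cases ?_ (fun i => ?_) i
      · exact hL0.2.2.2.2 a b hab
      · exact (hL _).2.2.2.2 a b hab
    · intro h
      by_contra hab
      have h' := h (Fin.succ (e (a, b)))
      simp only [Fin.cases_succ, Equiv.symm_apply_apply] at h'
      exact hn (a, b) hab h'

/-- The standard example with a greatest and a least element, as an aograph: `top` points to all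
`hi i`, `hi i` points to `lo j` for `j ≠ i`, and every `lo j` points to `bot`. Here
`inl true = top`, `inl false = bot`, `inr (inl i) = lo i`, `inr (inr i) = hi i`. -/
def stdArc (m : ℕ) : Bool ⊕ (Fin m ⊕ Fin m) → Bool ⊕ (Fin m ⊕ Fin m) → Prop
  | Sum.inl true, Sum.inr (Sum.inr _) => True
  | Sum.inr (Sum.inr i), Sum.inr (Sum.inl j) => i ≠ j
  | Sum.inr (Sum.inl _), Sum.inl false => True
  | _, _ => False

def stdLevel (m : ℕ) : Bool ⊕ (Fin m ⊕ Fin m) → ℕ
  | Sum.inl true => 3
  | Sum.inl false => 0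
  | Sum.inr (Sum.inl _) => 1
  | Sum.inr (Sum.inr _) => 2

theorem stdLevel_lt (m : ℕ) : ∀ x y, stdArc m x y → stdLevel m y < stdLevel m x := by
  rintro ((_ | _) | _ | _) ((_ | _) | _ | _) h <;> simp_all [stdArc, stdLevel]

def stdExample (m : ℕ) : Aograph (Bool ⊕ (Fin m ⊕ Fin m)) where
  Arc := stdArc m
  acyclic := by
    have : ∀ x y, Relation.TransGen (stdArc m) x y → stdLevel m y < stdLevel m x := by
      intro x y h
      induction h with
      | single h => exact stdLevel_lt m _ _ h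
      | tail _ h ih => exact (stdLevel_lt m _ _ h).trans ih
    exact fun v hv => lt_irrefl _ (this v v hv)

theorem stdExample_bounded (m : ℕ) (hm : 2 ≤ m) : (stdExample m).Bounded := by
  have hex : ∀ i : Fin m, ∃ j : Fin m, j ≠ i := by
    intro i
    by_cases h : i = ⟨0, by omega⟩
    · exact ⟨⟨1, by omega⟩, by rw [h]; simp⟩
    · exact ⟨⟨0, by omega⟩, fun h' => h h'.symm⟩
  have t1 : ∀ i, (stdExample m).Arc (Sum.inl true) (Sum.inr (Sum.inr i)) := fun _ => trivial
  have t2 : ∀ i j, i ≠ j → (stdExample m).Arc (Sum.inr (Sum.inr i)) (Sum.inr (Sum.inl j)) :=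
    fun _ _ h => h
  have t3 : ∀ i, (stdExample m).Arc (Sum.inr (Sum.inl i)) (Sum.inl false) := fun _ => trivial
  have c1 : ∀ i, (stdExample m).le (Sum.inr (Sum.inr i)) (Sum.inl true) :=
    fun i => Relation.ReflTransGen.single (t1 i)
  have c2 : ∀ i, (stdExample m).le (Sum.inr (Sum.inl i)) (Sum.inl true) := by
    intro i
    obtain ⟨j, hj⟩ := hex i
    exact (Relation.ReflTransGen.single (t1 j)).tail (t2 j i hj)
  have c3 : ∀ i, (stdExample m).le (Sum.inl false) (Sum.inr (Sum.inl i)) :=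
    fun i => Relation.ReflTransGen.single (t3 i)
  have c4 : ∀ i, (stdExample m).le (Sum.inl false) (Sum.inr (Sum.inr i)) := by
    intro i
    obtain ⟨j, hj⟩ := hex i
    exact (Relation.ReflTransGen.single (t2 i j hj.symm)).tail (t3 j)
  have c5 : (stdExample m).le (Sum.inl false) (Sum.inl true) :=
    Relation.ReflTransGen.trans (c1 ⟨0, by omega⟩) (c4 ⟨0, by omega⟩)
  refine ⟨⟨Sum.inl true, ?_⟩, ⟨Sum.inl false, ?_⟩⟩
  · rintro ((_ | _) | i | i)
    · exact c5
    · exact Relation.ReflTransGen.refl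
    · exact c2 i
    · exact c1 i
  · rintro ((_ | _) | i | i)
    · exact Relation.ReflTransGen.refl
    · exact c5
    · exact c3 i
    · exact c4 i

theorem std_not_le (m : ℕ) (i : Fin m) :
    ¬ (stdExample m).le (Sum.inr (Sum.inl i)) (Sum.inr (Sum.inr i)) := by
  intro h
  have key : ∀ y, Relation.ReflTransGen (stdArc m) (Sum.inr (Sum.inr i)) y →
      y = Sum.inr (Sum.inr i) ∨ (∃ j, j ≠ i ∧ y = Sum.inr (Sum.inl j)) ∨ y = Sum.inl false := by
    intro y hy
    induction hy with
    | refl => exact Or.inl rfl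
    | tail _ h ih =>
      rename_i b c _
      rcases ih with rfl | ⟨j, hj, rfl⟩ | rfl
      · rcases c with (_ | _) | j | j
        · simp [stdArc] at h
        · simp [stdArc] at h
        · exact Or.inr (Or.inl ⟨j, fun h' => h h'.symm, rfl⟩)
        · simp [stdArc] at h
      · rcases c with (_ | _) | j | j
        · exact Or.inr (Or.inr rfl)
        · simp [stdArc] at h
        · simp [stdArc] at h
        · simp [stdArc] at h
      · rcases c with (_ | _) | j | j <;> simp [stdArc] at h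
  rcases key _ h with h | ⟨j, hj, h⟩ | h
  · simp at h
  · simp only [Sum.inr.injEq, Sum.inl.injEq] at h
    exact hj h.symm
  · simp at h

theorem std_le (m : ℕ) {i j : Fin m} (h : i ≠ j) :
    (stdExample m).le (Sum.inr (Sum.inl j)) (Sum.inr (Sum.inr i)) := by
  have : (stdExample m).Arc (Sum.inr (Sum.inr i)) (Sum.inr (Sum.inl j)) := h
  exact Relation.ReflTransGen.single this

theorem stdExample_dim (m : ℕ) : m ≤ (stdExample m).dim := by
  apply le_csInf
  · exact exists_isIntersectionOf _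
  · rintro t ⟨_, L, hL, hLe⟩
    have hex : ∀ i : Fin m, ∃ k : Fin t, ¬ L k (Sum.inr (Sum.inl i)) (Sum.inr (Sum.inr i)) := by
      intro i
      by_contra hcon
      push Not at hcon
      exact std_not_le m i ((hLe _ _).2 hcon)
    choose k hk using hex
    have hinj : Function.Injective k := by
      intro i j hij
      by_contra hne
      have hLi := hL (k i)
      have a1 : L (k i) (Sum.inr (Sum.inr i)) (Sum.inr (Sum.inl i)) :=
        (hLi.2.2.2.1 _ _).resolve_left (hk i)
      have a2 : L (k i) (Sum.inr (Sum.inr j)) (Sum.inr (Sum.inl j)) := by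
        have := (hLi.2.2.2.1 (Sum.inr (Sum.inl j)) (Sum.inr (Sum.inr j)))
        exact this.resolve_left (hij ▸ hk j)
      have a3 : L (k i) (Sum.inr (Sum.inl i)) (Sum.inr (Sum.inr j)) :=
        hLi.2.2.2.2 _ _ (std_le m (Ne.symm hne))
      have a4 : L (k i) (Sum.inr (Sum.inl j)) (Sum.inr (Sum.inr i)) :=
        hLi.2.2.2.2 _ _ (std_le m hne)
      exact hk i (hLi.2.2.1 _ _ _ a3 (hLi.2.2.1 _ _ _ a2 a4))
    simpa using Fintype.card_le_of_injective k hinj

/-! ### The drawing in a book with three pages -/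

/-- Trapezoid bump around the level `i`. -/
noncomputable def bump (i : ℕ) (z : ℝ) : ℝ := min 1 (max 0 (2 - 4 * |z - i|))

noncomputable def D0 (K e : ℝ) (lo hi : ℕ) (z : ℝ) : ℝ :=
  max 0 (e - K * ∑ i ∈ Finset.Icc lo hi, bump i z)

noncomputable def D1 (K e : ℝ) (lo hi : ℕ) (z : ℝ) : ℝ :=
  ∑ i ∈ Finset.Ioo lo hi, max 0 (K * bump i z - e)

noncomputable def T (K e : ℝ) (i : ℕ) (z : ℝ) : ℝ :=
  max 0 (min ((K - e) * (4 * |z - i|)) (K * bump i z - e))

noncomputable def D2 (K e : ℝ) (lo hi : ℕ) (z : ℝ) : ℝ := T K e lo z + T K e hi z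

theorem bump_eq_zero {i j : ℕ} {z : ℝ} (hz : |z - i| ≤ 1 / 2) (hij : j ≠ i) : bump j z = 0 := by
  have h1 : (1 : ℝ) ≤ |(j : ℝ) - i| := by
    have h3 : (1 : ℤ) ≤ |(j : ℤ) - i| := Int.one_le_abs (by omega)
    exact_mod_cast h3
  have h2 : |(j : ℝ) - i| ≤ |z - j| + |z - i| := by
    have := abs_sub_le (j : ℝ) z i
    rw [abs_sub_comm (j : ℝ) z] at this
    exact this
  unfold bump
  rw [max_eq_left (by linarith)]
  simp

theorem bump_nonneg (i : ℕ) (z : ℝ) : 0 ≤ bump i z := by
  unfold bump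
  exact le_min zero_le_one (le_max_left _ _)

theorem bump_le_one (i : ℕ) (z : ℝ) : bump i z ≤ 1 := min_le_left _ _

theorem D0_eq {K e : ℝ} {lo hi i : ℕ} {z : ℝ} (h1 : lo ≤ i) (h2 : i ≤ hi)
    (hz : |z - i| ≤ 1 / 2) : D0 K e lo hi z = max 0 (e - K * bump i z) := by
  unfold D0
  rw [Finset.sum_eq_single i (fun j _ hj => bump_eq_zero hz hj)
    (fun h => absurd (Finset.mem_Icc.2 ⟨h1, h2⟩) h)]

theorem D1_eq_inner {K e : ℝ} {lo hi i : ℕ} {z : ℝ} (he : 0 < e) (h1 : lo < i) (h2 : i < hi)
    (hz : |z - i| ≤ 1 / 2) : D1 K e lo hi z = max 0 (K * bump i z - e) := by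
  unfold D1
  rw [Finset.sum_eq_single i (fun j _ hj => by
    rw [bump_eq_zero hz hj, mul_zero, max_eq_left (by linarith)])
    (fun h => absurd (Finset.mem_Ioo.2 ⟨h1, h2⟩) h)]

theorem D1_eq_end {K e : ℝ} {lo hi i : ℕ} {z : ℝ} (he : 0 < e) (h : i = lo ∨ i = hi)
    (hz : |z - i| ≤ 1 / 2) : D1 K e lo hi z = 0 := by
  unfold D1
  apply Finset.sum_eq_zero
  intro j hj
  rw [Finset.mem_Ioo] at hj
  rw [bump_eq_zero hz (by omega), mul_zero, max_eq_left (by linarith)]

theorem T_eq_zero {K e : ℝ} {i j : ℕ} {z : ℝ} (he : 0 < e) (hz : |z - i| ≤ 1 / 2)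
    (hij : j ≠ i) : T K e j z = 0 := by
  unfold T
  rw [bump_eq_zero hz hij, mul_zero]
  apply max_eq_left
  exact (min_le_right _ _).trans (by linarith)

theorem D2_eq_inner {K e : ℝ} {lo hi i : ℕ} {z : ℝ} (he : 0 < e) (h1 : lo < i) (h2 : i < hi)
    (hz : |z - i| ≤ 1 / 2) : D2 K e lo hi z = 0 := by
  unfold D2
  rw [T_eq_zero he hz (by omega), T_eq_zero he hz (by omega), add_zero]

theorem D2_eq_end {K e : ℝ} {lo hi i : ℕ} {z : ℝ} (he : 0 < e) (hlh : lo < hi)
    (h : i = lo ∨ i = hi) (hz : |z - i| ≤ 1 / 2) : D2 K e lo hi z = T K e i z := by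
  unfold D2
  rcases h with rfl | rfl
  · rw [T_eq_zero (j := hi) he hz (by omega), add_zero]
  · rw [T_eq_zero (j := lo) he hz (by omega), zero_add]

/-- The three possible situations of the strand `e` at height `z`. -/
theorem strand_cases {K e : ℝ} {lo hi i : ℕ} {z : ℝ} (he : 0 < e) (heK : e < K) (hlh : lo < hi)
    (h1 : lo ≤ i) (h2 : i ≤ hi) (hz : |z - i| ≤ 1 / 2) :
    (K * bump i z ≤ e ∧ D0 K e lo hi z = e - K * bump i z ∧ D1 K e lo hi z = 0 ∧
      D2 K e lo hi z = 0) ∨
    (e < K * bump i z ∧ lo < i ∧ i < hi ∧ D0 K e lo hi z = 0 ∧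
      D1 K e lo hi z = K * bump i z - e ∧ D2 K e lo hi z = 0) ∨
    (e < K * bump i z ∧ (i = lo ∨ i = hi) ∧ D0 K e lo hi z = 0 ∧ D1 K e lo hi z = 0 ∧
      D2 K e lo hi z = min ((K - e) * (4 * |z - i|)) (K * bump i z - e)) := by
  rcases le_or_gt (K * bump i z) e with h | h
  · left
    refine ⟨h, ?_, ?_, ?_⟩
    · rw [D0_eq h1 h2 hz, max_eq_right (by linarith)]
    · by_cases h3 : i = lo ∨ i = hi
      · exact D1_eq_end he h3 hz
      · rw [D1_eq_inner he (by omega) (by omega) hz, max_eq_left (by linarith)]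
    · by_cases h3 : i = lo ∨ i = hi
      · rw [D2_eq_end he hlh h3 hz, T]
        apply max_eq_left
        exact (min_le_right _ _).trans (by linarith)
      · exact D2_eq_inner he (by omega) (by omega) hz
  · right
    by_cases h3 : i = lo ∨ i = hi
    · right
      refine ⟨h, h3, ?_, D1_eq_end he h3 hz, ?_⟩
      · rw [D0_eq h1 h2 hz, max_eq_left (by linarith)]
      · rw [D2_eq_end he hlh h3 hz, T]
        apply max_eq_right
        apply le_min
        · have := abs_nonneg (z - i)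
          have h4 : 0 ≤ K - e := by linarith
          positivity
        · linarith
    · left
      refine ⟨h, by omega, by omega, ?_, ?_, D2_eq_inner he (by omega) (by omega) hz⟩
      · rw [D0_eq h1 h2 hz, max_eq_left (by linarith)]
      · rw [D1_eq_inner he (by omega) (by omega) hz, max_eq_right (by linarith)]

theorem ray_eq {u v : ℝ × ℝ} (hu : u ≠ 0) (hv : v ≠ 0) (huv : halfPlane u ≠ halfPlane v)
    {r s : ℝ} (hr : 0 ≤ r) (hs : 0 ≤ s) (h1 : r * u.1 = s * v.1) (h2 : r * u.2 = s * v.2) :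
    r = 0 ∧ s = 0 := by
  by_contra hcon
  have hr' : 0 < r := by
    rcases hr.lt_or_eq with h | h
    · exact h
    · exfalso
      have hs0 : s ≠ 0 := fun hs0 => hcon ⟨h.symm, hs0⟩
      rw [← h] at h1 h2
      simp only [zero_mul] at h1 h2
      apply hv
      ext
      · simpa [hs0] using h1.symm
      · simpa [hs0] using h2.symm
  have hs' : 0 < s := by
    rcases hs.lt_or_eq with h | h
    · exact h
    · exfalso
      rw [← h] at h1 h2
      simp only [zero_mul] at h1 h2
      apply hu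
      ext
      · simpa [hr'.ne'] using h1
      · simpa [hr'.ne'] using h2
  have e1 : u.1 = (s / r) * v.1 := by field_simp; linarith
  have e2 : u.2 = (s / r) * v.2 := by field_simp; linarith
  have e3 : v.1 = (r / s) * u.1 := by field_simp; linarith
  have e4 : v.2 = (r / s) * u.2 := by field_simp; linarith
  apply huv
  ext p
  constructor
  · rintro ⟨t, ht, hp1, hp2⟩
    exact ⟨t * (s / r), by positivity, by rw [hp1, e1]; ring, by rw [hp2, e2]; ring⟩
  · rintro ⟨t, ht, hp1, hp2⟩
    exact ⟨t * (r / s), by positivity, by rw [hp1, e3]; ring, by rw [hp2, e4]; ring⟩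

/-- The point of the strand `e` at height `z`. -/
noncomputable def strand (u : Fin 3 → ℝ × ℝ) (K e : ℝ) (lo hi : ℕ) (z : ℝ) : ℝ × ℝ × ℝ :=
  (D0 K e lo hi z * (u 0).1 + D1 K e lo hi z * (u 1).1 + D2 K e lo hi z * (u 2).1,
   D0 K e lo hi z * (u 0).2 + D1 K e lo hi z * (u 1).2 + D2 K e lo hi z * (u 2).2, z)

/-- nearest natural number -/
noncomputable def near (z : ℝ) : ℕ := ⌊z + 1 / 2⌋₊

theorem near_abs {z : ℝ} (hz : 0 ≤ z) : |z - near z| ≤ 1 / 2 := by
  have h1 : (near z : ℝ) ≤ z + 1 / 2 := Nat.floor_le (by linarith)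
  have h2 : z + 1 / 2 < (near z : ℝ) + 1 := Nat.lt_floor_add_one _
  rw [abs_le]
  constructor <;> linarith

theorem le_near {z : ℝ} {lo : ℕ} (h : (lo : ℝ) ≤ z) : lo ≤ near z :=
  Nat.le_floor (by linarith)

theorem near_le {z : ℝ} {hi : ℕ} (h0 : 0 ≤ z) (h : z ≤ (hi : ℝ)) : near z ≤ hi := by
  have h1 : (near z : ℝ) ≤ z + 1 / 2 := Nat.floor_le (by linarith)
  have h2 : (near z : ℝ) < (hi : ℝ) + 1 := by linarith
  have h3 : near z < hi + 1 := by exact_mod_cast h2
  omega

theorem near_nat (n : ℕ) : near (n : ℝ) = n := by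
  unfold near
  rw [Nat.floor_eq_iff (by positivity)]
  constructor <;> linarith

theorem bump_self (i : ℕ) : bump i (i : ℝ) = 1 := by
  unfold bump
  norm_num

/-- Trichotomy for the point of a strand at height `z`. -/
theorem strand_point (u : Fin 3 → ℝ × ℝ) {K e : ℝ} {lo hi : ℕ} {z : ℝ} (he : 0 < e)
    (heK : e < K) (hlh : lo < hi) (h1 : (lo : ℝ) ≤ z) (h2 : z ≤ hi) :
    (∃ r, 0 ≤ r ∧ K * bump (near z) z ≤ e ∧ r = e - K * bump (near z) z ∧
      strand u K e lo hi z = (r * (u 0).1, r * (u 0).2, z)) ∨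
    (∃ r, 0 < r ∧ e < K * bump (near z) z ∧ r = K * bump (near z) z - e ∧
      strand u K e lo hi z = (r * (u 1).1, r * (u 1).2, z)) ∨
    (∃ r, 0 ≤ r ∧ e < K * bump (near z) z ∧ (near z = lo ∨ near z = hi) ∧
      r = min ((K - e) * (4 * |z - near z|)) (K * bump (near z) z - e) ∧
      strand u K e lo hi z = (r * (u 2).1, r * (u 2).2, z)) := by
  have hz0 : 0 ≤ z := le_trans (Nat.cast_nonneg _) h1
  rcases strand_cases he heK hlh (le_near h1) (near_le hz0 h2) (near_abs hz0) with
    ⟨h, a, b, c⟩ | ⟨h, _, _, a, b, c⟩ | ⟨h, h', a, b, c⟩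
  · left
    exact ⟨_, by linarith, h, rfl, by simp [strand, a, b, c]⟩
  · right; left
    exact ⟨_, by linarith, h, rfl, by simp [strand, a, b, c]⟩
  · right; right
    refine ⟨_, ?_, h, h', rfl, by simp [strand, a, b, c]⟩
    apply le_min
    · have := abs_nonneg (z - near z)
      have h4 : 0 ≤ K - e := by linarith
      positivity
    · linarith

theorem strand_meet (u : Fin 3 → ℝ × ℝ) (hu : ∀ i, u i ≠ 0)
    (hd : Function.Injective fun i => halfPlane (u i)) {K e f : ℝ} {lo hi lo' hi' : ℕ} {z : ℝ}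
    (he : 0 < e) (heK : e < K) (hf : 0 < f) (hfK : f < K)
    (hlh : lo < hi) (hlh' : lo' < hi') (h1 : (lo : ℝ) ≤ z) (h2 : z ≤ hi)
    (h1' : (lo' : ℝ) ≤ z) (h2' : z ≤ hi') (hef : e ≠ f)
    (heq : strand u K e lo hi z = strand u K f lo' hi' z) :
    z = near z ∧ (near z = lo ∨ near z = hi) ∧ (near z = lo' ∨ near z = hi') ∧
      strand u K e lo hi z = (0, 0, z) := by
  have hd' : ∀ i j : Fin 3, i ≠ j → halfPlane (u i) ≠ halfPlane (u j) :=
    fun i j hij h => hij (hd h)
  have abs0 : 0 ≤ |z - near z| := abs_nonneg _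
  rcases strand_point u he heK hlh h1 h2 with
    ⟨r, hr0, hc, hr, hs⟩ | ⟨r, hr0, hc, hr, hs⟩ | ⟨r, hr0, hc, hn, hr, hs⟩ <;>
  rcases strand_point u hf hfK hlh' h1' h2' with
    ⟨r', hr0', hc', hr', hs'⟩ | ⟨r', hr0', hc', hr', hs'⟩ | ⟨r', hr0', hc', hn', hr', hs'⟩
  all_goals rw [hs, hs'] at heq; simp only [Prod.mk.injEq, and_true] at heq
  · -- both on page 0
    exfalso
    have : r = r' := by
      by_contra hne
      have h3 : (r - r') * (u 0).1 = 0 := by linarith
      have h4 : (r - r') * (u 0).2 = 0 := by linarith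
      have h5 : r - r' ≠ 0 := sub_ne_zero.2 hne
      apply hu 0
      ext
      · simpa [h5] using h3
      · simpa [h5] using h4
    apply hef
    linarith
  · exfalso
    have := ray_eq (hu 0) (hu 1) (hd' 0 1 (by decide)) hr0 hr0'.le heq.1 heq.2
    linarith [this.2]
  · exfalso
    have h3 := ray_eq (hu 0) (hu 2) (hd' 0 2 (by decide)) hr0 hr0' heq.1 heq.2
    have h4 : r' = 0 := h3.2
    rw [hr'] at h4
    have h5 : |z - near z| = 0 := by
      rcases min_eq_iff.1 h4 with h | h
      · have h6 : K - f ≠ 0 := by linarith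
        rcases mul_eq_zero.1 h.1 with h7 | h7
        · exact absurd h7 h6
        · linarith
      · linarith [h.1]
    have h6 : z = near z := by
      have := abs_eq_zero.1 h5
      linarith
    have h7 : bump (near z) z = 1 := by
      conv_lhs => rw [h6]
      rw [near_nat]
      exact bump_self _
    rw [h7] at hc
    linarith
  · exfalso
    have := ray_eq (hu 1) (hu 0) (hd' 1 0 (by decide)) hr0.le hr0' heq.1 heq.2
    linarith [this.1]
  · exfalso
    have : r = r' := by
      by_contra hne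
      have h3 : (r - r') * (u 1).1 = 0 := by linarith
      have h4 : (r - r') * (u 1).2 = 0 := by linarith
      have h5 : r - r' ≠ 0 := sub_ne_zero.2 hne
      apply hu 1
      ext
      · simpa [h5] using h3
      · simpa [h5] using h4
    apply hef
    linarith
  · exfalso
    have := ray_eq (hu 1) (hu 2) (hd' 1 2 (by decide)) hr0.le hr0' heq.1 heq.2
    linarith [this.1]
  · exfalso
    have h3 := ray_eq (hu 2) (hu 0) (hd' 2 0 (by decide)) hr0 hr0' heq.1 heq.2
    have h4 : r = 0 := h3.1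
    rw [hr] at h4
    have h5 : |z - near z| = 0 := by
      rcases min_eq_iff.1 h4 with h | h
      · have h6 : K - e ≠ 0 := by linarith
        rcases mul_eq_zero.1 h.1 with h7 | h7
        · exact absurd h7 h6
        · linarith
      · linarith [h.1]
    have h6 : z = near z := by
      have := abs_eq_zero.1 h5
      linarith
    have h7 : bump (near z) z = 1 := by
      conv_lhs => rw [h6]
      rw [near_nat]
      exact bump_self _
    rw [h7] at hc'
    linarith
  · exfalso
    have := ray_eq (hu 2) (hu 1) (hd' 2 1 (by decide)) hr0 hr0'.le heq.1 heq.2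
    linarith [this.2]
  · -- both on page 2
    have hrr : r = r' := by
      by_contra hne
      have h3 : (r - r') * (u 2).1 = 0 := by linarith
      have h4 : (r - r') * (u 2).2 = 0 := by linarith
      have h5 : r - r' ≠ 0 := sub_ne_zero.2 hne
      apply hu 2
      ext
      · simpa [h5] using h3
      · simpa [h5] using h4
    have h5 : |z - near z| = 0 := by
      by_contra hne
      have hpos : 0 < |z - near z| := lt_of_le_of_ne abs0 (Ne.symm hne)
      rcases le_or_gt |z - near z| (1 / 4) with h6 | h6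
      · have hb : bump (near z) z = 1 := by
          unfold bump
          rw [max_eq_right (by linarith), min_eq_left (by linarith)]
        rw [hb] at hr hr'
        rw [min_eq_left (by nlinarith)] at hr hr'
        apply hef
        have h8 : (K - e) * (4 * |z - near z|) = (K - f) * (4 * |z - near z|) := by
          rw [← hr, ← hr', hrr]
        have h9 := mul_right_cancel₀ (by positivity) h8
        linarith
      · have hb : bump (near z) z ≤ 1 := bump_le_one _ _
        have hK : 0 < K := by linarith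
        have hKb : K * bump (near z) z ≤ K := by nlinarith
        rw [min_eq_right (by nlinarith)] at hr hr'
        apply hef
        linarith
    have h6 : z = near z := by
      have := abs_eq_zero.1 h5
      linarith
    refine ⟨h6, hn, hn', ?_⟩
    rw [hs]
    have h7 : r = 0 := by
      rw [hr, h5, mul_zero, mul_zero, min_eq_left (by linarith)]
    rw [h7, zero_mul, zero_mul]

theorem strand_vertex (u : Fin 3 → ℝ × ℝ) (hu : ∀ i, u i ≠ 0)
    {K e : ℝ} {lo hi : ℕ} {z : ℝ}
    (he : 0 < e) (heK : e < K) (hlh : lo < hi) (h1 : (lo : ℝ) ≤ z) (h2 : z ≤ hi)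
    {n : ℕ} (heq : strand u K e lo hi z = (0, 0, (n : ℝ))) : n = lo ∨ n = hi := by
  have hzn : z = n := congrArg (fun p : ℝ × ℝ × ℝ => p.2.2) heq
  have hnz : near z = n := by rw [hzn]; exact near_nat n
  have hb : bump (near z) z = 1 := by rw [hnz, hzn]; exact bump_self n
  rcases strand_point u he heK hlh h1 h2 with
    ⟨r, hr0, hc, hr, hs⟩ | ⟨r, hr0, hc, hr, hs⟩ | ⟨r, hr0, hc, hn, hr, hs⟩
  · rw [hb] at hc
    linarith
  · exfalso
    rw [hs] at heq
    simp only [Prod.mk.injEq, mul_eq_zero, hr0.ne', false_or] at heq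
    exact hu 1 (by ext <;> simp [heq])
  · rw [hnz] at hn
    exact hn

theorem strand_end (u : Fin 3 → ℝ × ℝ) {K e : ℝ} {lo hi : ℕ} {n : ℕ}
    (he : 0 < e) (heK : e < K) (hlh : lo < hi) (hn : n = lo ∨ n = hi) :
    strand u K e lo hi (n : ℝ) = (0, 0, (n : ℝ)) := by
  have hz : |(n : ℝ) - (n : ℝ)| ≤ 1 / 2 := by simp
  rcases strand_cases (z := (n : ℝ)) (i := n) he heK hlh (by omega) (by omega) hz with
    ⟨h, a, b, c⟩ | ⟨h, _, _, a, b, c⟩ | ⟨h, h', a, b, c⟩
  · rw [bump_self] at h
    linarith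
  · omega
  · have : D2 K e lo hi (n : ℝ) = 0 := by
      rw [c, bump_self]
      simp only [sub_self, abs_zero, mul_zero, mul_one]
      exact min_eq_left (by linarith)
    simp [strand, a, b, this]

theorem strand_mem (u : Fin 3 → ℝ × ℝ) {B : Set (ℝ × ℝ × ℝ)}
    (hB : ∀ i, halfPlane (u i) ⊆ B) {K e : ℝ} {lo hi : ℕ} {z : ℝ}
    (he : 0 < e) (heK : e < K) (hlh : lo < hi) (h1 : (lo : ℝ) ≤ z) (h2 : z ≤ hi) :
    strand u K e lo hi z ∈ B := by
  rcases strand_point u he heK hlh h1 h2 with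
    ⟨r, hr0, hc, hr, hs⟩ | ⟨r, hr0, hc, hr, hs⟩ | ⟨r, hr0, hc, hn, hr, hs⟩
  · rw [hs]; exact hB 0 ⟨r, hr0, rfl, rfl⟩
  · rw [hs]; exact hB 1 ⟨r, hr0.le, rfl, rfl⟩
  · rw [hs]; exact hB 2 ⟨r, hr0, rfl, rfl⟩

theorem continuous_bump (i : ℕ) : Continuous (bump i) := by
  unfold bump; fun_prop

theorem continuous_D0 (K e : ℝ) (lo hi : ℕ) : Continuous (D0 K e lo hi) := by
  unfold D0
  have := fun i => continuous_bump i
  fun_prop

theorem continuous_D1 (K e : ℝ) (lo hi : ℕ) : Continuous (D1 K e lo hi) := by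
  unfold D1
  have := fun i => continuous_bump i
  fun_prop

theorem continuous_D2 (K e : ℝ) (lo hi : ℕ) : Continuous (D2 K e lo hi) := by
  unfold D2 T
  have := fun i => continuous_bump i
  fun_prop

theorem PL_bump (i : ℕ) (p v : ℝ) : PL (fun t => bump i (p + t * v)) := by
  unfold bump
  have h1 : PL (fun t => |p + t * v - i|) :=
    ((PL.affine (p - i) v).abs).congr fun r => by congr 1; ring
  have h2 : PL (fun t => 2 - 4 * |p + t * v - i|) :=
    ((PL.const 2).add (h1.cmul (-4))).congr fun r => by ring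
  exact (PL.const 1).min h2.pos

theorem PL_D0 (K e : ℝ) (lo hi : ℕ) (p v : ℝ) : PL (fun t => D0 K e lo hi (p + t * v)) := by
  unfold D0
  refine PL.pos (((PL.const e).add
    ((PL.sum (Finset.Icc lo hi) (fun i _ => PL_bump i p v)).cmul (-K))).congr fun r => ?_)
  ring

theorem PL_D1 (K e : ℝ) (lo hi : ℕ) (p v : ℝ) : PL (fun t => D1 K e lo hi (p + t * v)) := by
  unfold D1
  refine PL.sum (Finset.Ioo lo hi) (fun i _ => PL.pos ?_)
  exact (((PL_bump i p v).cmul K).add (PL.const (-e))).congr fun r => by ring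

theorem PL_T (K e : ℝ) (i : ℕ) (p v : ℝ) : PL (fun t => T K e i (p + t * v)) := by
  unfold T
  have h1 : PL (fun t => |p + t * v - i|) :=
    ((PL.affine (p - i) v).abs).congr fun r => by congr 1; ring
  refine PL.pos (PL.min ?_ ?_)
  · exact (h1.cmul ((K - e) * 4)).congr fun r => by ring
  · exact (((PL_bump i p v).cmul K).add (PL.const (-e))).congr fun r => by ring

theorem PL_D2 (K e : ℝ) (lo hi : ℕ) (p v : ℝ) : PL (fun t => D2 K e lo hi (p + t * v)) := by
  unfold D2
  exact (PL_T K e lo p v).add (PL_T K e hi p v)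

theorem isPLPath_strand (u : Fin 3 → ℝ × ℝ) (K e : ℝ) (lo hi : ℕ) (p v : ℝ) :
    IsPLPath (fun t => strand u K e lo hi (p + t * v)) := by
  unfold strand
  have c0 := continuous_D0 K e lo hi
  have c1 := continuous_D1 K e lo hi
  have c2 := continuous_D2 K e lo hi
  apply isPLPath_of_PL
  · exact ((((PL_D0 K e lo hi p v).cmul (u 0).1).add ((PL_D1 K e lo hi p v).cmul (u 1).1)).add
      ((PL_D2 K e lo hi p v).cmul (u 2).1)).congr fun r => by ring
  · exact ((((PL_D0 K e lo hi p v).cmul (u 0).2).add ((PL_D1 K e lo hi p v).cmul (u 1).2)).add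
      ((PL_D2 K e lo hi p v).cmul (u 2).2)).congr fun r => by ring
  · exact PL.affine p v
  · fun_prop
  · fun_prop
  · fun_prop

/-- Every finite aograph has an order-preserving embedding in every book with at least three
pages. -/
theorem exists_embedding {V : Type} [Fintype V] (G : Aograph V) {n : ℕ} (hn : 3 ≤ n)
    {B : Set (ℝ × ℝ × ℝ)} (hB : IsBook n B) : Nonempty (OrderPreservingEmbedding G B) := by
  classical
  obtain ⟨w, hw, hd, rfl⟩ := hB
  obtain ⟨h, hinj, hh⟩ := exists_height G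
  let u : Fin 3 → ℝ × ℝ := fun i => w (Fin.castLE hn i)
  have hu : ∀ i, u i ≠ 0 := fun i => hw _
  have hud : Function.Injective fun i => halfPlane (u i) := by
    intro i j hij
    have := hd hij
    exact Fin.castLE_injective hn this
  have huB : ∀ i, halfPlane (u i) ⊆ ⋃ i, halfPlane (w i) := fun i =>
    Set.subset_iUnion (fun i => halfPlane (w i)) (Fin.castLE hn i)
  let idx : V × V → ℝ := fun q => ((Fintype.equivFin (V × V) q : ℕ) : ℝ) + 1
  let K : ℝ := (Fintype.card (V × V) : ℝ) + 1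
  have hidx0 : ∀ q, 0 < idx q := fun q => by positivity
  have hidxK : ∀ q, idx q < K := fun q => by
    have h1 : ((Fintype.equivFin (V × V) q : ℕ) : ℝ) < (Fintype.card (V × V) : ℝ) := by
      exact_mod_cast (Fintype.equivFin (V × V) q).2
    simp only [idx, K]
    linarith
  have hidxinj : ∀ q q', q ≠ q' → idx q ≠ idx q' := by
    intro q q' hne heq
    apply hne
    have h1 : ((Fintype.equivFin (V × V) q : ℕ) : ℝ) = ((Fintype.equivFin (V × V) q' : ℕ) : ℝ) := by
      simp only [idx] at heq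
      linarith
    have h2 : (Fintype.equivFin (V × V) q : ℕ) = (Fintype.equivFin (V × V) q' : ℕ) := by
      exact_mod_cast h1
    exact (Fintype.equivFin (V × V)).injective (Fin.ext h2)
  -- heights along the arc
  have hz1 : ∀ {b a : V}, G.Arc b a → ∀ t ∈ Icc (0 : ℝ) 1,
      (h a : ℝ) ≤ (h b : ℝ) + t * ((h a : ℝ) - h b) := by
    intro b a hba t ht
    have : (h a : ℝ) < h b := by exact_mod_cast hh b a hba
    nlinarith [ht.1, ht.2]
  have hz2 : ∀ {b a : V}, G.Arc b a → ∀ t ∈ Icc (0 : ℝ) 1,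
      (h b : ℝ) + t * ((h a : ℝ) - h b) ≤ (h b : ℝ) := by
    intro b a hba t ht
    have : (h a : ℝ) < h b := by exact_mod_cast hh b a hba
    nlinarith [ht.1, ht.2]
  refine ⟨{
    pos := fun v => (0, 0, (h v : ℝ))
    path := fun b a t => strand u K (idx (b, a)) (h a) (h b) ((h b : ℝ) + t * ((h a : ℝ) - h b))
    pos_injective := ?_
    pos_mem := ?_
    path_pl := ?_
    path_zero := ?_
    path_one := ?_
    path_mem := ?_
    path_descends := ?_
    path_vertex := ?_
    path_disjoint := ?_ }⟩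
  · intro a b hab
    simp only [Prod.mk.injEq, true_and, Nat.cast_inj] at hab
    exact hinj hab
  · intro v
    exact huB 0 ⟨0, le_refl _, by simp, by simp⟩
  · intro b a _
    exact isPLPath_strand u K _ _ _ _ _
  · intro b a hba
    simp only [zero_mul, add_zero]
    exact strand_end u (hidx0 _) (hidxK _) (hh b a hba) (Or.inr rfl)
  · intro b a hba
    have : (h b : ℝ) + 1 * ((h a : ℝ) - h b) = h a := by ring
    simp only [this]
    exact strand_end u (hidx0 _) (hidxK _) (hh b a hba) (Or.inl rfl)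
  · intro b a hba t ht
    exact strand_mem u huB (hidx0 _) (hidxK _) (hh b a hba) (hz1 hba t ht) (hz2 hba t ht)
  · intro b a hba s _ t _ hst
    have : (h a : ℝ) < h b := by exact_mod_cast hh b a hba
    simp only [strand]
    nlinarith
  · intro b a hba t ht v heq
    rcases strand_vertex u hu (hidx0 _) (hidxK _) (hh b a hba) (hz1 hba t ht) (hz2 hba t ht)
      heq with h1 | h1
    · exact Or.inr (hinj h1)
    · exact Or.inl (hinj h1)
  · intro b a b' a' hba hba' hne s hs t ht heq
    have hz : (h b : ℝ) + s * ((h a : ℝ) - h b) = (h b' : ℝ) + t * ((h a' : ℝ) - h b') :=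
      congrArg (fun p : ℝ × ℝ × ℝ => p.2.2) heq
    have h1 := hz1 hba s hs
    have h2 := hz2 hba s hs
    have h3 := hz1 hba' t ht
    have h4 := hz2 hba' t ht
    rw [← hz] at h3 h4 heq
    obtain ⟨e1, e2, e3, e4⟩ := strand_meet u hu hud (hidx0 _) (hidxK _) (hidx0 _) (hidxK _)
      (hh b a hba) (hh b' a' hba') h1 h2 h3 h4 (hidxinj _ _ hne) heq
    rw [e4, e1]
    rcases e2 with e2 | e2 <;> rcases e3 with e3 | e3
    · exact ⟨a, Or.inr rfl, Or.inr (hinj (e2.symm.trans e3)), by rw [e2]⟩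
    · exact ⟨a, Or.inr rfl, Or.inl (hinj (e2.symm.trans e3)), by rw [e2]⟩
    · exact ⟨b, Or.inl rfl, Or.inr (hinj (e2.symm.trans e3)), by rw [e2]⟩
    · exact ⟨b, Or.inl rfl, Or.inl (hinj (e2.symm.trans e3)), by rw [e2]⟩

/-- Sanity check: for every `n` there is a book with `n` pages. -/
theorem exists_isBook (n : ℕ) : ∃ B, IsBook n B := by
  refine ⟨_, fun i => (1, (i : ℝ)), ?_, ?_, rfl⟩
  · intro i h
    simp at h
  · intro i j hij
    have h1 : ((1 : ℝ), ((i : ℕ) : ℝ), (0 : ℝ)) ∈ halfPlane (1, ((i : ℕ) : ℝ)) :=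
      ⟨1, zero_le_one, by simp, by simp⟩
    have h2 : ((1 : ℝ), ((i : ℕ) : ℝ), (0 : ℝ)) ∈ halfPlane (1, ((j : ℕ) : ℝ)) := by
      have h3 : halfPlane (1, ((i : ℕ) : ℝ)) = halfPlane (1, ((j : ℕ) : ℝ)) := hij
      rw [← h3]
      exact h1
    obtain ⟨r, _, h4, h5⟩ := h2
    simp only [mul_one] at h4 h5
    rw [← h4, one_mul] at h5
    exact Fin.ext (by exact_mod_cast h5)

/-- Bounded aographs that embed order-preservingly in a book with `n ≥ 3` pages have unbounded
dimension. -/
theorem result (n : ℕ) (hn : 3 ≤ n) (B : Set (ℝ × ℝ × ℝ)) (hB : IsBook n B) (d : ℕ) :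
    ∃ (V : Type) (_ : Fintype V) (G : Aograph V),
      G.Bounded ∧ d ≤ G.dim ∧ Nonempty (OrderPreservingEmbedding G B) := by
  refine ⟨Bool ⊕ (Fin (d + 2) ⊕ Fin (d + 2)), inferInstance, stdExample (d + 2),
    stdExample_bounded _ (by omega), ?_, exists_embedding _ hn hB⟩
  exact le_trans (by omega) (stdExample_dim (d + 2))

end Pool.Agent.Results.MP_c8a2a1_co.BookDimension
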