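import Mathlib

set_option autoImplicit false

namespace Pool.Agent.Results.MP_c8a2a1_co.SpineBook

open Set

/-- A finite oriented graph without directed cycles on the vertex type `V` (an aograph).
`Arc b a` says that there is an arc directed from `b` to `a`. Acyclicity excludes loops and
opposite arcs, and a relation has no multiple arcs. -/
structure Aograph (V : Type) where
  Arc : V → V → Prop
  acyclic : ∀ v, ¬ Relation.TransGen Arc v v

/-- The order `P(G)`: `a ≤ b` iff there is a directed path (possibly trivial) from `b` to `a`. -/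
def Aograph.le {V : Type} (G : Aograph V) (a b : V) : Prop := Relation.ReflTransGen G.Arc b a

/-- `P(G)` has a greatest and a least element. -/
def Aograph.Bounded {V : Type} (G : Aograph V) : Prop :=
  (∃ top, ∀ a, G.le a top) ∧ (∃ bot, ∀ a, G.le bot a)

/-- `L` is a linear order on `V` that contains the relation `r`. -/
def IsLinearExtension {V : Type} (r L : V → V → Prop) : Prop :=
  (∀ a, L a a) ∧ (∀ a b, L a b → L b a → a = b) ∧ (∀ a b c, L a b → L b c → L a c) ∧
    (∀ a b, L a b ∨ L b a) ∧ (∀ a b, r a b → L a b)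

/-- The relation `r` is the intersection of `t` linear extensions. -/
def IsIntersectionOf {V : Type} (r : V → V → Prop) (t : ℕ) : Prop :=
  ∃ L : Fin t → V → V → Prop, (∀ i, IsLinearExtension r (L i)) ∧ ∀ a b, r a b ↔ ∀ i, L i a b

/-- The order dimension of `P(G)`: the least positive `t` such that `P(G)` is the intersection
of `t` linear extensions. -/
noncomputable def Aograph.dim {V : Type} (G : Aograph V) : ℕ :=
  sInf {t : ℕ | 0 < t ∧ IsIntersectionOf G.le t}

/-- The closed half-plane of `ℝ³` that contains the point `(u.1, u.2, 0)` and whose boundary is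
the `z`-axis. -/
def halfPlane (u : ℝ × ℝ) : Set (ℝ × ℝ × ℝ) :=
  {p | ∃ r : ℝ, 0 ≤ r ∧ p.1 = r * u.1 ∧ p.2.1 = r * u.2}

/-- `γ` restricted to `[0,1]` is a piecewise linear path: it is continuous and there is a finite
set `S` of break points such that `γ` is affine on every subinterval of `[0,1]` whose interior
contains no point of `S`. -/
def IsPLPath (γ : ℝ → ℝ × ℝ × ℝ) : Prop :=
  ContinuousOn γ (Icc 0 1) ∧ ∃ S : Finset ℝ, ∀ s t : ℝ, 0 ≤ s → s < t → t ≤ 1 →
    (∀ r ∈ S, ¬ (s < r ∧ r < t)) → ∃ p v : ℝ × ℝ × ℝ, ∀ r ∈ Icc s t, γ r = p + r • v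

/-- An order-preserving embedding of the aograph `G` in the set `B ⊆ ℝ³`. The arc of `G` from
`b` to `a` is drawn along the path `path b a` on `[0,1]`. -/
structure OrderPreservingEmbedding {V : Type} (G : Aograph V) (B : Set (ℝ × ℝ × ℝ)) where
  pos : V → ℝ × ℝ × ℝ
  path : V → V → ℝ → ℝ × ℝ × ℝ
  pos_injective : Function.Injective pos
  pos_mem : ∀ v, pos v ∈ B
  path_pl : ∀ b a, G.Arc b a → IsPLPath (path b a)
  path_zero : ∀ b a, G.Arc b a → path b a 0 = pos b
  path_one : ∀ b a, G.Arc b a → path b a 1 = pos a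
  path_mem : ∀ b a, G.Arc b a → ∀ t ∈ Icc (0 : ℝ) 1, path b a t ∈ B
  path_descends : ∀ b a, G.Arc b a → StrictAntiOn (fun t => (path b a t).2.2) (Icc 0 1)
  path_vertex : ∀ b a, G.Arc b a → ∀ t ∈ Icc (0 : ℝ) 1, ∀ v, path b a t = pos v → v = b ∨ v = a
  path_disjoint : ∀ b a b' a', G.Arc b a → G.Arc b' a' → (b, a) ≠ (b', a') →
    ∀ s ∈ Icc (0 : ℝ) 1, ∀ t ∈ Icc (0 : ℝ) 1, path b a s = path b' a' t →
      ∃ v, (v = b ∨ v = a) ∧ (v = b' ∨ v = a') ∧ path b a s = pos v

/-! ### Piecewise linear real functions on `[0,1]` -/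

/-- Scalar version of piecewise linearity on `[0,1]`. -/
def PL (f : ℝ → ℝ) : Prop :=
  ∃ S : Finset ℝ, ∀ s t : ℝ, 0 ≤ s → s < t → t ≤ 1 →
    (∀ r ∈ S, ¬ (s < r ∧ r < t)) → ∃ p v : ℝ, ∀ r ∈ Icc s t, f r = p + r * v

theorem PL.affine (p v : ℝ) : PL (fun r => p + r * v) :=
  ⟨∅, fun _ _ _ _ _ _ => ⟨p, v, fun _ _ => rfl⟩⟩

theorem PL.const (p : ℝ) : PL (fun _ => p) :=
  ⟨∅, fun _ _ _ _ _ _ => ⟨p, 0, fun _ _ => by simp⟩⟩

theorem PL.add {f g : ℝ → ℝ} (hf : PL f) (hg : PL g) : PL (fun r => f r + g r) := by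
  classical
  obtain ⟨S, hS⟩ := hf
  obtain ⟨T, hT⟩ := hg
  refine ⟨S ∪ T, fun s t h0 hst h1 hr => ?_⟩
  obtain ⟨p, v, h⟩ := hS s t h0 hst h1 (fun r hr' => hr r (Finset.mem_union_left _ hr'))
  obtain ⟨p', v', h'⟩ := hT s t h0 hst h1 (fun r hr' => hr r (Finset.mem_union_right _ hr'))
  refine ⟨p + p', v + v', fun r hr => ?_⟩
  beta_reduce
  rw [h r hr, h' r hr]; ring

theorem PL.cmul {f : ℝ → ℝ} (c : ℝ) (hf : PL f) : PL (fun r => c * f r) := by
  obtain ⟨S, hS⟩ := hf
  refine ⟨S, fun s t h0 hst h1 hr => ?_⟩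
  obtain ⟨p, v, h⟩ := hS s t h0 hst h1 hr
  refine ⟨c * p, c * v, fun r hr => ?_⟩
  beta_reduce
  rw [h r hr]; ring

theorem PL.congr {f g : ℝ → ℝ} (hf : PL f) (h : ∀ r, g r = f r) : PL g := by
  obtain rfl : g = f := funext h
  exact hf

theorem PL.pos {f : ℝ → ℝ} (hf : PL f) : PL (fun r => max 0 (f r)) := by
  classical
  obtain ⟨S, hS⟩ := hf
  set S' : Finset ℝ := insert 0 (insert 1 S) with hS'
  let R : ℝ × ℝ → ℝ := fun q =>
    if h : ∃ p v : ℝ, v ≠ 0 ∧ ∀ r ∈ Icc q.1 q.2, f r = p + r * v then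
      -(h.choose) / (h.choose_spec.choose) else 0
  refine ⟨S' ∪ (S' ×ˢ S').image R, fun s t h0 hst h1 hr => ?_⟩
  have hA : (S'.filter (· ≤ s)).Nonempty := ⟨0, by simp [hS', h0]⟩
  have hB : (S'.filter (t ≤ ·)).Nonempty := ⟨1, by simp [hS', h1]⟩
  set s' := (S'.filter (· ≤ s)).max' hA with hs'
  set t' := (S'.filter (t ≤ ·)).min' hB with ht'
  have hs'm : s' ∈ S'.filter (· ≤ s) := Finset.max'_mem _ _
  have ht'm : t' ∈ S'.filter (t ≤ ·) := Finset.min'_mem _ _
  rw [Finset.mem_filter] at hs'm ht'm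
  have h0s' : 0 ≤ s' := Finset.le_max' _ _ (by simp [hS', h0])
  have h1t' : t' ≤ 1 := Finset.min'_le _ _ (by simp [hS', h1])
  have hs't' : s' < t' := lt_of_le_of_lt hs'm.2 (lt_of_lt_of_le hst ht'm.2)
  have hno : ∀ r ∈ S, ¬ (s' < r ∧ r < t') := by
    intro r hrS ⟨h3, h4⟩
    have hrS' : r ∈ S' := by simp [hS', hrS]
    by_cases h5 : r ≤ s
    · have : r ≤ s' := Finset.le_max' _ _ (by simp [hrS', h5])
      linarith
    · by_cases h6 : t ≤ r
      · have : t' ≤ r := Finset.min'_le _ _ (by simp [hrS', h6])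
        linarith
      · exact hr r (Finset.mem_union_left _ hrS') ⟨not_le.mp h5, not_le.mp h6⟩
  obtain ⟨p, v, h⟩ := hS s' t' h0s' hs't' h1t' hno
  by_cases hv : v = 0
  · refine ⟨max 0 p, 0, fun r hr => ?_⟩
    have := h r ⟨hs'm.2.trans hr.1, hr.2.trans ht'm.2⟩
    simp [this, hv]
  · have hex : ∃ p v : ℝ, v ≠ 0 ∧ ∀ r ∈ Icc (s', t').1 (s', t').2, f r = p + r * v := ⟨p, v, hv, h⟩
    have hroot : R (s', t') = -(hex.choose) / (hex.choose_spec.choose) := dif_pos hex
    have hmemR : R (s', t') ∈ S' ∪ (S' ×ˢ S').image R :=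
      Finset.mem_union_right _ (Finset.mem_image_of_mem R
        (Finset.mem_product.2 ⟨hs'm.1, ht'm.1⟩))
    have hnr := hr _ hmemR
    rw [hroot] at hnr
    obtain ⟨hv', h'⟩ := hex.choose_spec.choose_spec
    set p' := hex.choose
    set v' := hex.choose_spec.choose
    have h'' : ∀ r ∈ Icc s t, f r = p' + r * v' := fun r hr =>
      h' r ⟨hs'm.2.trans hr.1, hr.2.trans ht'm.2⟩
    set r0 := -p' / v' with hr0
    have hp' : p' = -(r0 * v') := by rw [hr0]; field_simp
    have hf' : ∀ r ∈ Icc s t, f r = v' * (r - r0) := by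
      intro r hr; rw [h'' r hr, hp']; ring
    rcases lt_or_ge s r0 with h7 | h7
    · have h8 : t ≤ r0 := by
        by_contra h8; exact hnr ⟨h7, not_le.mp h8⟩
      rcases lt_or_gt_of_ne hv' with h9 | h9
      · refine ⟨p', v', fun r hr => ?_⟩
        beta_reduce
        rw [h'' r hr, max_eq_right]
        rw [← h'' r hr, hf' r hr]
        nlinarith [hr.2]
      · refine ⟨0, 0, fun r hr => ?_⟩
        beta_reduce
        rw [hf' r hr, max_eq_left]
        · simp
        · nlinarith [hr.2]
    · rcases lt_or_gt_of_ne hv' with h9 | h9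
      · refine ⟨0, 0, fun r hr => ?_⟩
        beta_reduce
        rw [hf' r hr, max_eq_left]
        · simp
        · nlinarith [hr.1]
      · refine ⟨p', v', fun r hr => ?_⟩
        beta_reduce
        rw [h'' r hr, max_eq_right]
        rw [← h'' r hr, hf' r hr]
        nlinarith [hr.1]

theorem PL.max {f g : ℝ → ℝ} (hf : PL f) (hg : PL g) : PL (fun r => max (f r) (g r)) := by
  refine (hf.add (hg.add (hf.cmul (-1))).pos).congr fun r => ?_
  rcases le_total (f r) (g r) with h | h
  · rw [max_eq_right h, max_eq_right (by linarith)]; ring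
  · rw [max_eq_left h, max_eq_left (by linarith)]; ring

theorem PL.min {f g : ℝ → ℝ} (hf : PL f) (hg : PL g) : PL (fun r => min (f r) (g r)) := by
  refine (((hf.cmul (-1)).max (hg.cmul (-1))).cmul (-1)).congr fun r => ?_
  rcases le_total (f r) (g r) with h | h
  · rw [min_eq_left h, max_eq_left (by linarith)]; ring
  · rw [min_eq_right h, max_eq_right (by linarith)]; ring

theorem PL.abs {f : ℝ → ℝ} (hf : PL f) : PL (fun r => |f r|) := by
  refine (hf.max (hf.cmul (-1))).congr fun r => ?_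
  rw [abs_eq_max_neg, neg_one_mul]

theorem PL.sum {ι : Type} (s : Finset ι) {f : ι → ℝ → ℝ} (hf : ∀ i ∈ s, PL (f i)) :
    PL (fun r => ∑ i ∈ s, f i r) := by
  classical
  induction s using Finset.induction_on with
  | empty => simpa using PL.const 0
  | insert a s ha ih =>
    refine ((hf a (Finset.mem_insert_self _ _)).add
      (ih fun i hi => hf i (Finset.mem_insert_of_mem hi))).congr fun r => ?_
    rw [Finset.sum_insert ha]

theorem isPLPath_of_PL {f g k : ℝ → ℝ} (hf : PL f) (hg : PL g) (hk : PL k)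
    (cf : Continuous f) (cg : Continuous g) (ck : Continuous k) :
    IsPLPath (fun r => (f r, g r, k r)) := by
  classical
  refine ⟨(by fun_prop : Continuous fun r => (f r, g r, k r)).continuousOn, ?_⟩
  obtain ⟨S, hS⟩ := hf
  obtain ⟨T, hT⟩ := hg
  obtain ⟨U, hU⟩ := hk
  refine ⟨S ∪ (T ∪ U), fun s t h0 hst h1 hr => ?_⟩
  obtain ⟨p, v, h⟩ := hS s t h0 hst h1 (fun r hr' => hr r (by simp [hr']))
  obtain ⟨p', v', h'⟩ := hT s t h0 hst h1 (fun r hr' => hr r (by simp [hr']))
  obtain ⟨p'', v'', h''⟩ := hU s t h0 hst h1 (fun r hr' => hr r (by simp [hr']))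
  refine ⟨(p, p', p''), (v, v', v''), fun r hr => ?_⟩
  simp [h r hr, h' r hr, h'' r hr]

/-! ### Linear extensions -/

theorem le_antisymm' {V : Type} (G : Aograph V) {a b : V} (hab : G.le a b) (hba : G.le b a) :
    a = b := by
  rcases Relation.reflTransGen_iff_eq_or_transGen.1 hab with h | h
  · exact h
  · exact absurd (Relation.TransGen.trans_left h hba) (G.acyclic b)

theorem exists_linearExtension {V : Type} (r : V → V → Prop) (h1 : ∀ a, r a a)
    (h2 : ∀ a b, r a b → r b a → a = b) (h3 : ∀ a b c, r a b → r b c → r a c) :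
    ∃ L, IsLinearExtension r L := by
  have hpo : IsPartialOrder V r :=
    { refl := h1, trans := h3, antisymm := h2 }
  obtain ⟨L, hL, hle⟩ := extend_partialOrder r
  refine ⟨L, fun a => hL.refl a, fun a b => hL.antisymm a b, fun a b c => hL.trans a b c,
    fun a b => hL.total a b, fun a b => hle a b⟩

theorem exists_linearExtension_of_not {V : Type} (G : Aograph V) {x y : V} (hxy : ¬ G.le x y) :
    ∃ L, IsLinearExtension G.le L ∧ ¬ L x y := by
  have hne : x ≠ y := fun h => hxy (h ▸ Relation.ReflTransGen.refl)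
  have tr : ∀ {a b c}, G.le a b → G.le b c → G.le a c := fun hab hbc =>
    Relation.ReflTransGen.trans hbc hab
  obtain ⟨L, hL⟩ := exists_linearExtension (fun a b => G.le a b ∨ (G.le a y ∧ G.le x b))
    (fun a => Or.inl Relation.ReflTransGen.refl)
    (by
      rintro a b (h | ⟨h, h'⟩) (k | ⟨k, k'⟩)
      · exact le_antisymm' G h k
      · exact absurd (tr k' (tr h k)) hxy
      · exact absurd (tr h' (tr k h)) hxy
      · exact absurd (tr h' k) hxy)
    (by
      rintro a b c (h | ⟨h, h'⟩) (k | ⟨k, k'⟩)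
      · exact Or.inl (tr h k)
      · exact Or.inr ⟨tr h k, k'⟩
      · exact Or.inr ⟨h, tr h' k⟩
      · exact Or.inr ⟨h, k'⟩)
  refine ⟨L, ⟨hL.1, hL.2.1, hL.2.2.1, hL.2.2.2.1, fun a b hab => hL.2.2.2.2 a b (Or.inl hab)⟩, ?_⟩
  intro hL'
  exact hne (hL.2.1 _ _ hL' (hL.2.2.2.2 _ _
    (Or.inr ⟨Relation.ReflTransGen.refl, Relation.ReflTransGen.refl⟩)))

/-! ### Realizers exist -/

theorem exists_isIntersectionOf {V : Type} [Fintype V] (G : Aograph V) :
    ∃ t, 0 < t ∧ IsIntersectionOf G.le t := by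
  classical
  have hL : ∀ q : V × V, ∃ L, IsLinearExtension G.le L ∧ (¬ G.le q.1 q.2 → ¬ L q.1 q.2) := by
    intro q
    by_cases h : G.le q.1 q.2
    · obtain ⟨L, hL⟩ := exists_linearExtension G.le
        (fun a => Relation.ReflTransGen.refl) (fun a b => le_antisymm' G)
        (fun a b c hab hbc => Relation.ReflTransGen.trans hbc hab)
      exact ⟨L, hL, fun h' => absurd h h'⟩
    · obtain ⟨L, hL, hn⟩ := exists_linearExtension_of_not G h
      exact ⟨L, hL, fun _ => hn⟩
  choose L hL hn using hL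
  obtain ⟨L0, hL0⟩ := exists_linearExtension G.le
        (fun a => Relation.ReflTransGen.refl) (fun a b => le_antisymm' G)
        (fun a b c hab hbc => Relation.ReflTransGen.trans hbc hab)
  let e := Fintype.equivFin (V × V)
  refine ⟨Fintype.card (V × V) + 1, Nat.succ_pos _, Fin.cases L0 (fun i => L (e.symm i)), ?_, ?_⟩
  · intro i
    refine Fin.cases ?_ (fun i => ?_) i
    · exact hL0
    · exact hL _
  · intro a b
    constructor
    · intro hab i
      refine Fin.cases ?_ (fun i => ?_) i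
      · exact hL0.2.2.2.2 a b hab
      · exact (hL _).2.2.2.2 a b hab
    · intro h
      by_contra hab
      have h' := h (Fin.succ (e (a, b)))
      simp only [Fin.cases_succ, Equiv.symm_apply_apply] at h'
      exact hn (a, b) hab h'

theorem ray_eq {u v : ℝ × ℝ} (hu : u ≠ 0) (hv : v ≠ 0) (huv : halfPlane u ≠ halfPlane v)
    {r s : ℝ} (hr : 0 ≤ r) (hs : 0 ≤ s) (h1 : r * u.1 = s * v.1) (h2 : r * u.2 = s * v.2) :
    r = 0 ∧ s = 0 := by
  by_contra hcon
  have hr' : 0 < r := by
    rcases hr.lt_or_eq with h | h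
    · exact h
    · exfalso
      have hs0 : s ≠ 0 := fun hs0 => hcon ⟨h.symm, hs0⟩
      rw [← h] at h1 h2
      simp only [zero_mul] at h1 h2
      apply hv
      ext
      · simpa [hs0] using h1.symm
      · simpa [hs0] using h2.symm
  have hs' : 0 < s := by
    rcases hs.lt_or_eq with h | h
    · exact h
    · exfalso
      rw [← h] at h1 h2
      simp only [zero_mul] at h1 h2
      apply hu
      ext
      · simpa [hr'.ne'] using h1
      · simpa [hr'.ne'] using h2
  have e1 : u.1 = (s / r) * v.1 := by field_simp; linarith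
  have e2 : u.2 = (s / r) * v.2 := by field_simp; linarith
  have e3 : v.1 = (r / s) * u.1 := by field_simp; linarith
  have e4 : v.2 = (r / s) * u.2 := by field_simp; linarith
  apply huv
  ext p
  constructor
  · rintro ⟨t, ht, hp1, hp2⟩
    exact ⟨t * (s / r), by positivity, by rw [hp1, e1]; ring, by rw [hp2, e2]; ring⟩
  · rintro ⟨t, ht, hp1, hp2⟩
    exact ⟨t * (r / s), by positivity, by rw [hp1, e3]; ring, by rw [hp2, e4]; ring⟩


/-! ### Drawing from a vertex order and a page assignment without crossings -/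

/-- The curve of an arc: `A` and `B` are the depths of its ends. -/
noncomputable def tent (u : ℝ × ℝ) (B A : ℝ) (t : ℝ) : ℝ × ℝ × ℝ :=
  ((A - B) ^ 2 * min t (1 - t) * u.1, (A - B) ^ 2 * min t (1 - t) * u.2, -(B + t * (A - B)))

theorem PL_min_t : PL (fun t => min t (1 - t)) :=
  ((PL.affine 0 1).congr (fun r => by ring)).min ((PL.affine 1 (-1)).congr (fun r => by ring))

theorem isPLPath_tent (u : ℝ × ℝ) (B A : ℝ) : IsPLPath (tent u B A) := by
  apply isPLPath_of_PL
  · exact (PL_min_t.cmul ((A - B) ^ 2 * u.1)).congr fun r => by ring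
  · exact (PL_min_t.cmul ((A - B) ^ 2 * u.2)).congr fun r => by ring
  · exact (PL.affine (-B) (-(A - B))).congr fun r => by ring
  · fun_prop
  · fun_prop
  · fun_prop

theorem min_nonneg_of {t : ℝ} (ht : t ∈ Icc (0 : ℝ) 1) : 0 ≤ min t (1 - t) :=
  le_min ht.1 (by linarith [ht.2])

theorem tent_zero_iff {u : ℝ × ℝ} (hu : u ≠ 0) {B A t : ℝ} (hBA : B < A)
    (_ : t ∈ Icc (0 : ℝ) 1) (h1 : (A - B) ^ 2 * min t (1 - t) * u.1 = 0)
    (h2 : (A - B) ^ 2 * min t (1 - t) * u.2 = 0) : t = 0 ∨ t = 1 := by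
  have hpos : (A - B) ^ 2 ≠ 0 := by
    have : 0 < A - B := by linarith
    positivity
  by_cases hm : min t (1 - t) = 0
  · rcases min_eq_iff.1 hm with h | h
    · exact Or.inl h.1
    · exact Or.inr (by linarith [h.1])
  · exfalso
    apply hu
    ext
    · simpa [hpos, hm] using h1
    · simpa [hpos, hm] using h2

/-- Nested intervals have disjoint tents. -/
theorem nested_lt {B A B' A' s t : ℝ} (hB : B ≤ B') (hA : A' ≤ A) (hne : B < B' ∨ A' < A)
    (hBA' : B' < A') (ht : 0 < t ∧ t < 1)
    (hy : B + s * (A - B) = B' + t * (A' - B')) :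
    (A' - B') ^ 2 * min t (1 - t) < (A - B) ^ 2 * min s (1 - s) := by
  have hAB : 0 < A - B := by linarith
  have hAB' : 0 < A' - B' := by linarith
  have hlen : A' - B' < A - B := by rcases hne with h | h <;> linarith
  have e1 : (A - B) * s = B' + t * (A' - B') - B := by linarith
  have e2 : (A - B) * (1 - s) = A - (B' + t * (A' - B')) := by linarith
  have f1 : (A' - B') * t ≤ (A - B) * s := by rw [e1]; nlinarith
  have f2 : (A' - B') * (1 - t) ≤ (A - B) * (1 - s) := by rw [e2]; nlinarith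
  have g : (A' - B') * min t (1 - t) ≤ (A - B) * min s (1 - s) := by
    rcases min_cases s (1 - s) with ⟨h, _⟩ | ⟨h, _⟩
    · rw [h]
      exact (mul_le_mul_of_nonneg_left (min_le_left _ _) hAB'.le).trans f1
    · rw [h]
      exact (mul_le_mul_of_nonneg_left (min_le_right _ _) hAB'.le).trans f2
  have hpos : 0 < (A' - B') * min t (1 - t) :=
    mul_pos hAB' (lt_min ht.1 (by linarith [ht.2]))
  nlinarith

theorem exists_spine_embedding {V : Type} (G : Aograph V) {n : ℕ} (u : Fin n → ℝ × ℝ)
    (hu : ∀ i, u i ≠ 0) (hd : Function.Injective fun i => halfPlane (u i))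
    (δ : V → ℕ) (hδ : Function.Injective δ) (harc : ∀ b a, G.Arc b a → δ b < δ a)
    (pg : V → V → Fin n)
    (hcross : ∀ b a b' a', G.Arc b a → G.Arc b' a' → pg b a = pg b' a' →
      ¬ (δ b < δ b' ∧ δ b' < δ a ∧ δ a < δ a')) :
    ∃ φ : OrderPreservingEmbedding G (⋃ i, halfPlane (u i)),
      (∀ v, (φ.pos v).1 = 0 ∧ (φ.pos v).2.1 = 0) ∧
      (∀ b a, G.Arc b a → ∃ i, ∀ t ∈ Icc (0 : ℝ) 1, φ.path b a t ∈ halfPlane (u i)) := by
  have hmem : ∀ b a, ∀ t ∈ Icc (0 : ℝ) 1,
      tent (u (pg b a)) (δ b) (δ a) t ∈ halfPlane (u (pg b a)) := by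
    intro b a t ht
    exact ⟨_, mul_nonneg (sq_nonneg _) (min_nonneg_of ht), rfl, rfl⟩
  have hex : ∀ b a, G.Arc b a → (δ b : ℝ) < δ a := fun b a h => by exact_mod_cast harc b a h
  refine ⟨{
    pos := fun v => (0, 0, -(δ v : ℝ))
    path := fun b a t => tent (u (pg b a)) (δ b) (δ a) t
    pos_injective := ?_
    pos_mem := ?_
    path_pl := ?_
    path_zero := ?_
    path_one := ?_
    path_mem := ?_
    path_descends := ?_
    path_vertex := ?_
    path_disjoint := ?_ }, fun v => ⟨rfl, rfl⟩, fun b a _ => ⟨pg b a, hmem b a⟩⟩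
  · intro a b hab
    simp only [Prod.mk.injEq, true_and, neg_inj, Nat.cast_inj] at hab
    exact hδ hab
  · intro v
    exact Set.mem_iUnion.2 ⟨pg v v, 0, le_refl _, by simp, by simp⟩
  · intro b a _
    exact isPLPath_tent _ _ _
  · intro b a _
    simp [tent]
  · intro b a _
    simp [tent]
  · intro b a _ t ht
    exact Set.mem_iUnion.2 ⟨_, hmem b a t ht⟩
  · intro b a hba s _ t _ hst
    have := hex b a hba
    simp only [tent]
    nlinarith
  · intro b a hba t ht v heq
    have h0 := hex b a hba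
    simp only [tent, Prod.mk.injEq, neg_inj] at heq
    rcases tent_zero_iff (hu _) h0 ht heq.1 heq.2.1 with rfl | rfl
    · left
      apply hδ
      have : (δ b : ℝ) = δ v := by linarith [heq.2.2]
      exact_mod_cast this.symm
    · right
      apply hδ
      have : (δ a : ℝ) = δ v := by linarith [heq.2.2]
      exact_mod_cast this.symm
  · intro b a b' a' hba hba' hne s hs t ht heq
    have h0 := hex b a hba
    have h0' := hex b' a' hba'
    have heq' := heq
    simp only [tent, Prod.mk.injEq, neg_inj] at heq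
    obtain ⟨e1, e2, e3⟩ := heq
    -- both points are on the spine
    have main : (s = 0 ∨ s = 1) ∧ (t = 0 ∨ t = 1) := by
      by_cases hp : pg b a = pg b' a'
      · rw [hp] at e1 e2
        by_cases hs1 : s = 0 ∨ s = 1
        · have hz : min s (1 - s) = 0 := by rcases hs1 with rfl | rfl <;> norm_num
          rw [hz, mul_zero, zero_mul] at e1 e2
          exact ⟨hs1, tent_zero_iff (hu (pg b' a')) h0' ht e1.symm e2.symm⟩
        · by_cases ht1 : t = 0 ∨ t = 1
          · have hz : min t (1 - t) = 0 := by rcases ht1 with rfl | rfl <;> norm_num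
            rw [hz, mul_zero, zero_mul] at e1 e2
            exact ⟨tent_zero_iff (hu (pg b' a')) h0 hs e1 e2, ht1⟩
          · exfalso
            push Not at hs1 ht1
            have hs2 : 0 < s ∧ s < 1 := ⟨lt_of_le_of_ne hs.1 (Ne.symm hs1.1),
              lt_of_le_of_ne hs.2 hs1.2⟩
            have ht2 : 0 < t ∧ t < 1 := ⟨lt_of_le_of_ne ht.1 (Ne.symm ht1.1),
              lt_of_le_of_ne ht.2 ht1.2⟩
            have hrr : ((δ a : ℝ) - δ b) ^ 2 * min s (1 - s) =
                ((δ a' : ℝ) - δ b') ^ 2 * min t (1 - t) := by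
              by_contra hne'
              have h3 : ((δ a : ℝ) - δ b) ^ 2 * min s (1 - s) -
                ((δ a' : ℝ) - δ b') ^ 2 * min t (1 - t) ≠ 0 := sub_ne_zero.2 hne'
              apply hu (pg b' a')
              ext
              · have h4 : (((δ a : ℝ) - δ b) ^ 2 * min s (1 - s) -
                  ((δ a' : ℝ) - δ b') ^ 2 * min t (1 - t)) * (u (pg b' a')).1 = 0 := by
                  rw [sub_mul, e1, sub_self]
                exact (mul_eq_zero.1 h4).resolve_left h3
              · have h4 : (((δ a : ℝ) - δ b) ^ 2 * min s (1 - s) -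
                  ((δ a' : ℝ) - δ b') ^ 2 * min t (1 - t)) * (u (pg b' a')).2 = 0 := by
                  rw [sub_mul, e2, sub_self]
                exact (mul_eq_zero.1 h4).resolve_left h3
            have n1 : ¬ ((δ b : ℝ) < δ b' ∧ (δ b' : ℝ) < δ a ∧ (δ a : ℝ) < δ a') := by
              have := hcross b a b' a' hba hba' hp
              exact_mod_cast this
            have n2 : ¬ ((δ b' : ℝ) < δ b ∧ (δ b : ℝ) < δ a' ∧ (δ a' : ℝ) < δ a) := by
              have := hcross b' a' b a hba' hba hp.symm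
              exact_mod_cast this
            have q1 : (δ b : ℝ) < δ a' := by nlinarith
            have q2 : (δ b' : ℝ) < δ a := by nlinarith
            have hdiff : (δ b : ℝ) ≠ δ b' ∨ (δ a : ℝ) ≠ δ a' := by
              by_contra hcon
              push Not at hcon
              apply hne
              have h5 : δ b = δ b' := by exact_mod_cast hcon.1
              have h6 : δ a = δ a' := by exact_mod_cast hcon.2
              rw [hδ h5, hδ h6]
            by_cases hc1 : (δ b : ℝ) ≤ δ b' ∧ (δ a' : ℝ) ≤ δ a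
            · have hne2 : (δ b : ℝ) < δ b' ∨ (δ a' : ℝ) < δ a := by
                rcases hdiff with h | h
                · exact Or.inl (lt_of_le_of_ne hc1.1 h)
                · exact Or.inr (lt_of_le_of_ne hc1.2 (Ne.symm h))
              have := nested_lt (s := s) hc1.1 hc1.2 hne2 h0' ht2 e3
              linarith
            · have hc2 : (δ b' : ℝ) ≤ δ b ∧ (δ a : ℝ) ≤ δ a' := by
                rcases lt_or_ge (δ b : ℝ) (δ b' : ℝ) with h | h
                · exfalso
                  apply hc1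
                  refine ⟨h.le, ?_⟩
                  by_contra h7
                  exact n1 ⟨h, q2, not_le.1 h7⟩
                · refine ⟨h, ?_⟩
                  by_contra h7
                  rcases h.lt_or_eq with h8 | h8
                  · exact n2 ⟨h8, q1, not_le.1 h7⟩
                  · exact hc1 ⟨h8.symm.le, (not_le.1 h7).le⟩
              have hne2 : (δ b' : ℝ) < δ b ∨ (δ a : ℝ) < δ a' := by
                rcases hdiff with h | h
                · exact Or.inl (lt_of_le_of_ne hc2.1 (Ne.symm h))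
                · exact Or.inr (lt_of_le_of_ne hc2.2 h)
              have := nested_lt (s := t) hc2.1 hc2.2 hne2 h0 hs2 e3.symm
              linarith
      · have hr := ray_eq (hu (pg b a)) (hu (pg b' a')) (fun h => hp (hd h))
          (mul_nonneg (sq_nonneg ((δ a : ℝ) - δ b)) (min_nonneg_of hs))
          (mul_nonneg (sq_nonneg ((δ a' : ℝ) - δ b')) (min_nonneg_of ht)) e1 e2
        constructor
        · exact tent_zero_iff (hu (pg b a)) h0 hs (by rw [hr.1, zero_mul]) (by rw [hr.1, zero_mul])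
        · exact tent_zero_iff (hu (pg b' a')) h0' ht (by rw [hr.2, zero_mul])
            (by rw [hr.2, zero_mul])
    rcases main with ⟨rfl | rfl, rfl | rfl⟩
    · have : δ b = δ b' := by
        have : (δ b : ℝ) = δ b' := by linarith
        exact_mod_cast this
      exact ⟨b, Or.inl rfl, Or.inl (hδ this), by simp [tent]⟩
    · have : δ b = δ a' := by
        have : (δ b : ℝ) = δ a' := by linarith
        exact_mod_cast this
      exact ⟨b, Or.inl rfl, Or.inr (hδ this), by simp [tent]⟩
    · have : δ a = δ b' := by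
        have : (δ a : ℝ) = δ b' := by linarith
        exact_mod_cast this
      exact ⟨a, Or.inr rfl, Or.inl (hδ this), by simp [tent]⟩
    · have : δ a = δ a' := by
        have : (δ a : ℝ) = δ a' := by linarith
        exact_mod_cast this
      exact ⟨a, Or.inr rfl, Or.inr (hδ this), by simp [tent]⟩

/-! ### An explicit three-page digraph containing the standard example

Vertices: `inl true` is the top, `inl false` the bottom, `inr (inl k)` is the vertex `hi k`, and
`inr (inr (k, j))` is the vertex of strand `j` at stage `k`. -/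

abbrev Vt (m : ℕ) := Bool ⊕ (Fin m ⊕ (Fin (m + 1) × Fin m))

/-- The page of the arc from the first to the second vertex, if there is such an arc. -/
def lab (m : ℕ) : Vt m → Vt m → Option (Fin 3)
  | Sum.inl true, Sum.inr (Sum.inr (k, _)) => if k.val = 0 then some 1 else none
  | Sum.inl true, Sum.inr (Sum.inl _) => some 1
  | Sum.inr (Sum.inl k), Sum.inr (Sum.inr (l, j)) =>
      if l.val = k.val + 1 ∧ j ≠ k then some 1 else none
  | Sum.inr (Sum.inr (k, i)), Sum.inr (Sum.inr (l, j)) =>
      if l.val = k.val + 1 ∧ i = j then (if k.val % 2 = 0 then some 0 else some 2) else none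
  | Sum.inr (Sum.inr (k, _)), Sum.inl false =>
      if k.val = m then (if k.val % 2 = 0 then some 0 else some 2) else none
  | _, _ => none

def blk (m : ℕ) : Vt m → ℕ
  | Sum.inl true => 0
  | Sum.inl false => m + 2
  | Sum.inr (Sum.inl k) => k.val + 1
  | Sum.inr (Sum.inr (k, _)) => k.val + 1

def off (m : ℕ) : Vt m → ℕ
  | Sum.inl true => 0
  | Sum.inl false => 0
  | Sum.inr (Sum.inl _) => m
  | Sum.inr (Sum.inr (k, j)) => if k.val % 2 = 0 then j.val else m - 1 - j.val

def depth (m : ℕ) (x : Vt m) : ℕ := blk m x * (m + 1) + off m x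

theorem off_lt (m : ℕ) (x : Vt m) : off m x < m + 1 := by
  rcases x with (_ | _) | k | ⟨k, j⟩
  · simp [off]
  · simp [off]
  · simp [off]
  · simp only [off]
    split_ifs <;> omega

theorem enc_lt {M a b a' b' : ℕ} (hb : b < M) (hb' : b' < M) :
    a * M + b < a' * M + b' ↔ a < a' ∨ (a = a' ∧ b < b') := by
  constructor
  · intro h
    rcases lt_trichotomy a a' with h1 | h1 | h1
    · exact Or.inl h1
    · subst h1
      exact Or.inr ⟨rfl, by omega⟩
    · exfalso
      have : a' * M + M ≤ a * M := by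
        calc a' * M + M = (a' + 1) * M := by ring
          _ ≤ a * M := Nat.mul_le_mul_right _ h1
      omega
  · rintro (h | ⟨rfl, h⟩)
    · have : a * M + M ≤ a' * M := by
        calc a * M + M = (a + 1) * M := by ring
          _ ≤ a' * M := Nat.mul_le_mul_right _ h
      omega
    · omega

theorem depth_lt (m : ℕ) (x y : Vt m) : depth m x < depth m y ↔
    blk m x < blk m y ∨ (blk m x = blk m y ∧ off m x < off m y) :=
  enc_lt (off_lt m x) (off_lt m y)

theorem depth_inj (m : ℕ) : Function.Injective (depth m) := by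
  intro x y hxy
  have h1 : ¬ depth m x < depth m y := by omega
  have h2 : ¬ depth m y < depth m x := by omega
  rw [depth_lt] at h1 h2
  have hb : blk m x = blk m y := by omega
  have ho : off m x = off m y := by omega
  rcases x with (_ | _) | k | ⟨k, j⟩ <;> rcases y with (_ | _) | k' | ⟨k', j'⟩ <;>
    simp only [blk, off] at hb ho
  all_goals first
    | rfl
    | omega
    | skip
  · congr 2
    exact Fin.ext (by omega)
  · split_ifs at ho <;> omega
  · split_ifs at ho <;> omega
  · have hk : k = k' := Fin.ext (by omega)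
    subst hk
    have hj : j = j' := by
      apply Fin.ext
      split_ifs at ho <;> omega
    subst hj
    rfl

/-- The possible arcs. -/
theorem lab_cases (m : ℕ) {x y : Vt m} {p : Fin 3} (h : lab m x y = some p) :
    (∃ (k : Fin (m + 1)) (j : Fin m), x = Sum.inl true ∧ y = Sum.inr (Sum.inr (k, j)) ∧
      k.val = 0 ∧ p = 1) ∨
    (∃ k : Fin m, x = Sum.inl true ∧ y = Sum.inr (Sum.inl k) ∧ p = 1) ∨
    (∃ (k : Fin m) (l : Fin (m + 1)) (j : Fin m), x = Sum.inr (Sum.inl k) ∧
      y = Sum.inr (Sum.inr (l, j)) ∧ l.val = k.val + 1 ∧ j ≠ k ∧ p = 1) ∨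
    (∃ (k l : Fin (m + 1)) (j : Fin m), x = Sum.inr (Sum.inr (k, j)) ∧
      y = Sum.inr (Sum.inr (l, j)) ∧ l.val = k.val + 1 ∧
      ((k.val % 2 = 0 ∧ p = 0) ∨ (k.val % 2 = 1 ∧ p = 2))) ∨
    (∃ (k : Fin (m + 1)) (j : Fin m), x = Sum.inr (Sum.inr (k, j)) ∧ y = Sum.inl false ∧
      k.val = m ∧ ((k.val % 2 = 0 ∧ p = 0) ∨ (k.val % 2 = 1 ∧ p = 2))) := by
  rcases x with (_ | _) | k | ⟨k, j⟩ <;> rcases y with (_ | _) | k' | ⟨k', j'⟩ <;>
    simp only [lab, reduceCtorEq] at h
  · right; left
    exact ⟨k', rfl, rfl, by simpa using h.symm⟩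
  · left
    split_ifs at h with h1
    exact ⟨k', j', rfl, rfl, h1, by simpa using h.symm⟩
  · right; right; left
    split_ifs at h with h1
    exact ⟨k, k', j', rfl, rfl, h1.1, h1.2, by simpa using h.symm⟩
  · right; right; right; right
    split_ifs at h with h1 h2
    · exact ⟨k, j, rfl, rfl, h1, Or.inl ⟨h2, by simpa using h.symm⟩⟩
    · exact ⟨k, j, rfl, rfl, h1, Or.inr ⟨by omega, by simpa using h.symm⟩⟩
  · right; right; right; left
    split_ifs at h with h1 h2
    · obtain ⟨h1, rfl⟩ := h1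
      exact ⟨k, k', j, rfl, rfl, h1, Or.inl ⟨h2, by simpa using h.symm⟩⟩
    · obtain ⟨h1, rfl⟩ := h1
      exact ⟨k, k', j, rfl, rfl, h1, Or.inr ⟨by omega, by simpa using h.symm⟩⟩

theorem lab_depth (m : ℕ) {x y : Vt m} {p : Fin 3} (h : lab m x y = some p) :
    depth m x < depth m y := by
  rw [depth_lt]
  rcases lab_cases m h with ⟨k, j, rfl, rfl, h1, rfl⟩ | ⟨k, rfl, rfl, rfl⟩ |
    ⟨k, l, j, rfl, rfl, h1, h2, rfl⟩ | ⟨k, l, j, rfl, rfl, h1, h2⟩ | ⟨k, j, rfl, rfl, h1, h2⟩ <;>
    simp only [blk, off] <;> omega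

/-- No two arcs on the same page cross. -/
theorem lab_cross (m : ℕ) {x y x' y' : Vt m} {p : Fin 3} (h : lab m x y = some p)
    (h' : lab m x' y' = some p) :
    ¬ (depth m x < depth m x' ∧ depth m x' < depth m y ∧ depth m y < depth m y') := by
  rw [depth_lt, depth_lt, depth_lt]
  rcases lab_cases m h with ⟨k, j, rfl, rfl, h1, rfl⟩ | ⟨k, rfl, rfl, rfl⟩ |
    ⟨k, l, j, rfl, rfl, h1, h2, rfl⟩ | ⟨k, l, j, rfl, rfl, h1, h2⟩ |
    ⟨k, j, rfl, rfl, h1, h2⟩ <;>
  rcases lab_cases m h' with ⟨k', j', rfl, rfl, h1', h3⟩ | ⟨k', rfl, rfl, h3⟩ |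
    ⟨k', l', j', rfl, rfl, h1', h2', h3⟩ | ⟨k', l', j', rfl, rfl, h1', h2'⟩ |
    ⟨k', j', rfl, rfl, h1', h2'⟩
  all_goals simp only [blk, off]
  all_goals try simp only [Fin.isValue, and_false, Fin.reduceEq, or_self] at h2'
  all_goals first
    | omega
    | (split_ifs <;> omega)

/-- The digraph of the construction. -/
def net (m : ℕ) : Aograph (Vt m) where
  Arc x y := ∃ p, lab m x y = some p
  acyclic := by
    have : ∀ x y, Relation.TransGen (fun x y => ∃ p, lab m x y = some p) x y →
        depth m x < depth m y := by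
      intro x y h
      induction h with
      | single h => exact lab_depth m h.choose_spec
      | tail _ h ih => exact ih.trans (lab_depth m h.choose_spec)
    exact fun v hv => lt_irrefl _ (this v v hv)

theorem arc_top_hi (m : ℕ) (k : Fin m) : (net m).Arc (Sum.inl true) (Sum.inr (Sum.inl k)) :=
  ⟨1, rfl⟩

theorem arc_top_st (m : ℕ) (j : Fin m) :
    (net m).Arc (Sum.inl true) (Sum.inr (Sum.inr (0, j))) :=
  ⟨1, by simp [lab]⟩

theorem arc_hi_st (m : ℕ) (k j : Fin m) (h : j ≠ k) :
    (net m).Arc (Sum.inr (Sum.inl k)) (Sum.inr (Sum.inr (k.succ, j))) :=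
  ⟨1, by simp [lab, h]⟩

theorem arc_st_st (m : ℕ) (k l : Fin (m + 1)) (j : Fin m) (h : l.val = k.val + 1) :
    (net m).Arc (Sum.inr (Sum.inr (k, j))) (Sum.inr (Sum.inr (l, j))) := by
  by_cases hk : k.val % 2 = 0
  · exact ⟨0, by simp [lab, h, hk]⟩
  · exact ⟨2, by simp [lab, h, hk]⟩

theorem arc_st_bot (m : ℕ) (k : Fin (m + 1)) (j : Fin m) (h : k.val = m) :
    (net m).Arc (Sum.inr (Sum.inr (k, j))) (Sum.inl false) := by
  by_cases hk : k.val % 2 = 0
  · exact ⟨0, by simp only [lab, h, if_true]; rw [h] at hk; simp [hk]⟩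
  · exact ⟨2, by simp only [lab, h, if_true]; rw [h] at hk; simp [hk]⟩

/-- Along a strand everything is reachable. -/
theorem le_strand (m : ℕ) (j : Fin m) : ∀ (d : ℕ) (k l : Fin (m + 1)), l.val = k.val + d →
    (net m).le (Sum.inr (Sum.inr (l, j))) (Sum.inr (Sum.inr (k, j))) := by
  intro d
  induction d with
  | zero =>
    intro k l h
    have : l = k := Fin.ext (by omega)
    subst this
    exact Relation.ReflTransGen.refl
  | succ d ih =>
    intro k l h
    have hl : l.val - 1 < m + 1 := by omega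
    have h1 := ih k ⟨l.val - 1, hl⟩ (by simp only []; omega)
    exact Relation.ReflTransGen.tail h1 (arc_st_st m ⟨l.val - 1, hl⟩ l j (by simp only []; omega))

theorem net_bounded (m : ℕ) (hm : 2 ≤ m) : (net m).Bounded := by
  have hex : ∀ i : Fin m, ∃ j : Fin m, j ≠ i := by
    intro i
    by_cases h : i = ⟨0, by omega⟩
    · exact ⟨⟨1, by omega⟩, by rw [h]; simp⟩
    · exact ⟨⟨0, by omega⟩, fun h' => h h'.symm⟩
  have tr : ∀ {a b c}, (net m).le a b → (net m).le b c → (net m).le a c := fun hab hbc =>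
    Relation.ReflTransGen.trans hbc hab
  have s1 : ∀ (k : Fin (m + 1)) (j : Fin m),
      (net m).le (Sum.inr (Sum.inr (k, j))) (Sum.inl true) := by
    intro k j
    exact tr (le_strand m j k.val 0 k (by simp)) (Relation.ReflTransGen.single (arc_top_st m j))
  have s2 : ∀ (k : Fin (m + 1)) (j : Fin m),
      (net m).le (Sum.inl false) (Sum.inr (Sum.inr (k, j))) := by
    intro k j
    exact tr (Relation.ReflTransGen.single (arc_st_bot m (Fin.last m) j (by simp)))
      (le_strand m j (m - k.val) k (Fin.last m) (by simp only [Fin.val_last]; omega))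
  refine ⟨⟨Sum.inl true, ?_⟩, ⟨Sum.inl false, ?_⟩⟩
  · rintro ((_ | _) | i | ⟨k, j⟩)
    · exact tr (s2 0 ⟨0, by omega⟩) (s1 0 ⟨0, by omega⟩)
    · exact Relation.ReflTransGen.refl
    · exact Relation.ReflTransGen.single (arc_top_hi m i)
    · exact s1 k j
  · rintro ((_ | _) | i | ⟨k, j⟩)
    · exact Relation.ReflTransGen.refl
    · exact tr (s2 0 ⟨0, by omega⟩) (s1 0 ⟨0, by omega⟩)
    · obtain ⟨j, hj⟩ := hex i
      exact tr (s2 i.succ j) (Relation.ReflTransGen.single (arc_hi_st m i j hj))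
    · exact s2 k j

theorem net_le (m : ℕ) {i j : Fin m} (h : i ≠ j) :
    (net m).le (Sum.inr (Sum.inr (Fin.last m, j))) (Sum.inr (Sum.inl i)) := by
  have h1 := le_strand m j (m - (i.val + 1)) i.succ (Fin.last m)
    (by simp only [Fin.val_last, Fin.val_succ]; omega)
  exact Relation.ReflTransGen.trans
    (Relation.ReflTransGen.single (arc_hi_st m i j (Ne.symm h))) h1

theorem net_not_le (m : ℕ) (i : Fin m) :
    ¬ (net m).le (Sum.inr (Sum.inr (Fin.last m, i))) (Sum.inr (Sum.inl i)) := by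
  intro h
  have key : ∀ y, Relation.ReflTransGen (net m).Arc (Sum.inr (Sum.inl i)) y →
      y = Sum.inr (Sum.inl i) ∨ (∃ k j, j ≠ i ∧ y = Sum.inr (Sum.inr (k, j))) ∨
        y = Sum.inl false := by
    intro y hy
    induction hy with
    | refl => exact Or.inl rfl
    | tail _ h ih =>
      rename_i b c _
      obtain ⟨p, hp⟩ := h
      rcases lab_cases m hp with ⟨k, j, rfl, rfl, h1, rfl⟩ | ⟨k, rfl, rfl, rfl⟩ |
        ⟨k, l, j, rfl, rfl, h1, h2, rfl⟩ | ⟨k, l, j, rfl, rfl, h1, h2⟩ |
        ⟨k, j, rfl, rfl, h1, h2⟩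
      · simp at ih
      · simp at ih
      · rcases ih with ih | ih | ih
        · simp only [Sum.inr.injEq, Sum.inl.injEq] at ih
          subst ih
          exact Or.inr (Or.inl ⟨l, j, h2, rfl⟩)
        · simp at ih
        · simp at ih
      · rcases ih with ih | ⟨k', j', hj', ih⟩ | ih
        · simp at ih
        · simp only [Sum.inr.injEq, Prod.mk.injEq] at ih
          exact Or.inr (Or.inl ⟨l, j, by rw [ih.2]; exact hj', rfl⟩)
        · simp at ih
      · exact Or.inr (Or.inr rfl)
  rcases key _ h with h | ⟨k, j, hj, h⟩ | h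
  · simp at h
  · simp only [Sum.inr.injEq, Prod.mk.injEq] at h
    exact hj h.2.symm
  · simp at h

theorem net_dim (m : ℕ) : m ≤ (net m).dim := by
  apply le_csInf
  · exact exists_isIntersectionOf _
  · rintro t ⟨_, L, hL, hLe⟩
    have hex : ∀ i : Fin m, ∃ k : Fin t,
        ¬ L k (Sum.inr (Sum.inr (Fin.last m, i))) (Sum.inr (Sum.inl i)) := by
      intro i
      by_contra hcon
      push Not at hcon
      exact net_not_le m i ((hLe _ _).2 hcon)
    choose k hk using hex
    have hinj : Function.Injective k := by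
      intro i j hij
      by_contra hne
      have hLi := hL (k i)
      have a2 : L (k i) (Sum.inr (Sum.inl j)) (Sum.inr (Sum.inr (Fin.last m, j))) := by
        have := (hLi.2.2.2.1 (Sum.inr (Sum.inr (Fin.last m, j))) (Sum.inr (Sum.inl j)))
        exact this.resolve_left (hij ▸ hk j)
      have a3 : L (k i) (Sum.inr (Sum.inr (Fin.last m, i))) (Sum.inr (Sum.inl j)) :=
        hLi.2.2.2.2 _ _ (net_le m (Ne.symm hne))
      have a4 : L (k i) (Sum.inr (Sum.inr (Fin.last m, j))) (Sum.inr (Sum.inl i)) :=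
        hLi.2.2.2.2 _ _ (net_le m hne)
      exact hk i (hLi.2.2.1 _ _ _ a3 (hLi.2.2.1 _ _ _ a2 a4))
    simpa using Fintype.card_le_of_injective k hinj

/-- Sanity check: for every `n` there are `n` distinct half-planes as in the theorem. -/
theorem exists_pages (n : ℕ) : ∃ u : Fin n → ℝ × ℝ, (∀ i, u i ≠ 0) ∧
    Function.Injective (fun i => halfPlane (u i)) := by
  refine ⟨fun i => (1, (i : ℝ)), ?_, ?_⟩
  · intro i h
    simp at h
  · intro i j hij
    have h1 : ((1 : ℝ), ((i : ℕ) : ℝ), (0 : ℝ)) ∈ halfPlane (1, ((i : ℕ) : ℝ)) :=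
      ⟨1, zero_le_one, by simp, by simp⟩
    have h2 : ((1 : ℝ), ((i : ℕ) : ℝ), (0 : ℝ)) ∈ halfPlane (1, ((j : ℕ) : ℝ)) := by
      have h3 : halfPlane (1, ((i : ℕ) : ℝ)) = halfPlane (1, ((j : ℕ) : ℝ)) := hij
      rw [← h3]
      exact h1
    obtain ⟨r, _, h4, h5⟩ := h2
    simp only [mul_one] at h4 h5
    rw [← h4, one_mul] at h5
    exact Fin.ext (by exact_mod_cast h5)

/-- For every book with `n ≥ 3` pages (given by the directions `u i` of its pages) there are
bounded aographs of arbitrarily large dimension with an order-preserving embedding in the book in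
which all vertices lie on the `z`-axis and every arc lies in a single page. -/
theorem result (n : ℕ) (hn : 3 ≤ n) (u : Fin n → ℝ × ℝ) (hu : ∀ i, u i ≠ 0)
    (hd : Function.Injective fun i => halfPlane (u i)) (d : ℕ) :
    ∃ (V : Type) (_ : Fintype V) (G : Aograph V), G.Bounded ∧ d ≤ G.dim ∧
      ∃ φ : OrderPreservingEmbedding G (⋃ i, halfPlane (u i)),
        (∀ v, (φ.pos v).1 = 0 ∧ (φ.pos v).2.1 = 0) ∧
        (∀ b a, G.Arc b a → ∃ i, ∀ t ∈ Icc (0 : ℝ) 1, φ.path b a t ∈ halfPlane (u i)) := by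
  refine ⟨Vt (d + 2), inferInstance, net (d + 2), net_bounded _ (by omega),
    le_trans (by omega) (net_dim (d + 2)), ?_⟩
  refine exists_spine_embedding (net (d + 2)) u hu hd (depth (d + 2)) (depth_inj _)
    (fun b a h => lab_depth _ h.choose_spec)
    (fun b a => Fin.castLE hn ((lab (d + 2) b a).getD 0)) ?_
  rintro b a b' a' ⟨p, hp⟩ ⟨p', hp'⟩ hpp
  simp only [hp, hp', Option.getD_some] at hpp
  have hpp' : p = p' := Fin.castLE_injective hn hpp
  subst hpp'
  exact lab_cross _ hp hp'

end Pool.Agent.Results.MP_c8a2a1_co.SpineBook
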